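import Pool.Agent.DL73.Base

/-!
# Twisted spans over a larger division ring of scalars
-/

set_option autoImplicit false

namespace DL73

open Finset Module BI29

variable {κ D : Type} [Field κ] [DivisionRing D] [Algebra κ D]
variable {p : ℕ} {G : ℕ → Submodule κ D} {g : ℕ} {u : Fin g → D} {d : Fin g → ℕ} {c E : ℕ}

/-- M7: passing to a larger division ring of scalars -/
theorem Xs_ext (_h : Cor p G g u d c E) {K K' : Type} [DivisionRing K] [DivisionRing K']
    [Module K D] [Module K' D] (ρ : K →+* K') (hρ : ∀ (a : K) (x : D), ρ a • x = a • x) (z : D)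
    (n : ℕ) [FiniteDimensional K (Xs K G z n)] :
    FiniteDimensional K' (Xs K' G z n) ∧
      finrank K' (Xs K' G z n) ≤ finrank K (Xs K G z n) := by
  classical
  let b := finBasis K (Xs K G z n)
  obtain ⟨S, hS⟩ : ∃ S : Submodule K' D, S = Submodule.span K' (Set.range fun i => (b i : D)) :=
    ⟨_, rfl⟩
  have hle : Xs K' G z n ≤ S := by
    refine Submodule.span_le.2 ?_
    rintro _ ⟨x, hx, rfl⟩
    have h1 : z * x ∈ Xs K G z n := mem_Xs hx
    have h2 : z * x = ∑ i, ρ (b.repr ⟨z * x, h1⟩ i) • (b i : D) := by
      have h3 := congrArg (Xs K G z n).subtype (b.sum_repr ⟨z * x, h1⟩)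
      rw [map_sum] at h3
      refine h3.symm.trans ?_
      refine Finset.sum_congr rfl fun i _ => ?_
      rw [hρ]
      rfl
    show z * x ∈ S
    rw [h2, hS]
    exact Submodule.sum_mem _ fun i _ => Submodule.smul_mem _ _ (Submodule.subset_span ⟨i, rfl⟩)
  have hSf : FiniteDimensional K' S := by
    rw [hS]
    exact FiniteDimensional.span_of_finite K' (Set.finite_range _)
  refine ⟨Submodule.finiteDimensional_of_le hle, ?_⟩
  refine (Submodule.finrank_mono hle).trans ?_
  rw [hS]
  refine (finrank_range_le_card (R := K') (fun i => (b i : D))).trans ?_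
  rw [Fintype.card_fin]

end DL73
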