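import Pool.Agent.DL73.Base
import Pool.Agent.FD29.Dim

/-!
# The last drop: linear growth over the centraliser means finite dimension
-/

set_option autoImplicit false

namespace DL73

open Finset Module BI29

variable {κ D : Type} [Field κ] [DivisionRing D] [Algebra κ D]
variable {p : ℕ} {G : ℕ → Submodule κ D} {g : ℕ} {u : Fin g → D} {d : Fin g → ℕ} {c E : ℕ}

namespace M3

theorem finrank_le_map {K V W : Type} [DivisionRing K] [AddCommGroup V] [Module K V]
    [AddCommGroup W] [Module K W] (T : V →ₗ[K] W) (S : Submodule K V) [FiniteDimensional K S]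
    (z : V) (hz : LinearMap.ker T ≤ Submodule.span K {z}) :
    finrank K S ≤ finrank K (S.map T) + 1 := by
  have h1 := LinearMap.finrank_range_add_finrank_ker (T.domRestrict S)
  rw [LinearMap.range_domRestrict] at h1
  have h2 : finrank K (LinearMap.ker (T.domRestrict S)) ≤ 1 := by
    have h3 : finrank K ((LinearMap.ker (T.domRestrict S)).map S.subtype) =
        finrank K (LinearMap.ker (T.domRestrict S)) := Submodule.finrank_map_subtype_eq _ _
    rw [← h3]
    have h4 : (LinearMap.ker (T.domRestrict S)).map S.subtype ≤ Submodule.span K {z} := by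
      rintro x ⟨y, hy, rfl⟩
      exact hz hy
    refine (Submodule.finrank_mono h4).trans ?_
    have h5 := finrank_span_le_card (R := K) ({z} : Set V)
    simpa using h5
  omega

/-- commutators with powers -/
theorem comm_pow (h : Cor p G g u d c E) [hp : Fact p.Prime] (j : Fin g) (l : ℕ) (hl : 1 ≤ l)
    {x : D} {n : ℕ} (hx : x ∈ G n) :
    u j ^ l * x - x * u j ^ l ∈ G (n + (l * (d j + 1) - p ^ padicValNat p l)) := by
  set P := p ^ padicValNat p l with hP
  have hP1 : 1 ≤ P := Nat.one_le_pow _ _ hp.out.pos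
  obtain ⟨k, hk⟩ : P ∣ l := pow_padicValNat_dvd
  have hk1 : 1 ≤ k := by
    rcases Nat.eq_zero_or_pos k with rfl | h0
    · omega
    · exact h0
  have key : ∀ k : ℕ, 1 ≤ k → (u j ^ P) ^ k * x - x * (u j ^ P) ^ k ∈
      G (n + (P * k * (d j + 1) - P)) := by
    intro k hk
    induction k, hk using Nat.le_induction with
    | base =>
      rw [pow_one, mul_one]
      refine h.mono ?_ (h.comm j (padicValNat p l) n x hx)
      rw [← hP, Nat.mul_add, mul_one, Nat.add_sub_cancel]
    | succ k hk ih =>
      have h1 : (u j ^ P) ^ (k + 1) * x - x * (u j ^ P) ^ (k + 1) =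
          u j ^ P * ((u j ^ P) ^ k * x - x * (u j ^ P) ^ k) +
            (u j ^ P * x - x * u j ^ P) * (u j ^ P) ^ k := by
        rw [pow_succ' (u j ^ P) k]
        noncomm_ring
      rw [h1]
      have h2 : u j ^ P ∈ G (P * (d j + 1)) := h.pow_mem (h.umem j) P
      have h3 : (u j ^ P) ^ k ∈ G (k * (P * (d j + 1))) := h.pow_mem h2 k
      have h4 := h.comm j (padicValNat p l) n x hx
      rw [← hP] at h4
      have h5 : P ≤ P * k * (d j + 1) := by
        have : P * 1 * 1 ≤ P * k * (d j + 1) := by gcongr; omega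
        omega
      have h6 : P * (k + 1) * (d j + 1) = P * k * (d j + 1) + P * (d j + 1) := by ring
      have h7 : P * (d j + 1) = P * d j + P := by ring
      have h8 : k * (P * (d j + 1)) = P * k * (d j + 1) := by ring
      refine Submodule.add_mem _ ?_ ?_
      · refine h.mono ?_ (h.mul _ _ _ _ h2 ih)
        omega
      · refine h.mono ?_ (h.mul _ _ _ _ h4 h3)
        omega
  have h9 := key k hk1
  rw [← pow_mul, ← hk] at h9
  exact h9

section

variable {K : Type} [DivisionRing K] [Module K D]

/-- one index: some power of `u j` falls -/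
theorem exists_fall (h : Cor p G g u d c E) [hp : Fact p.Prime] [IsScalarTower K D D] (z : D)
    (hz : z ≠ 0)
    (hfin : ∀ n, FiniteDimensional K (Xs K G z n))
    (γ : K) (hγ : ∀ a : K, γ * a = a * γ)
    (hker : ∀ y : D, (γ • (1 : D)) * y = y * (γ • (1 : D)) → ∃ a : K, y = a • (1 : D)) (C : ℕ)
    (hC : ∀ N, finrank K (Xs K G z N) ≤ C * (N + 1)) (j : Fin g) :
    ∃ l, 1 ≤ l ∧ z * u j ^ l ∈ Xs K G z (l * (d j + 1) - 1) := by
  classical
  by_contra hcon
  push Not at hcon
  set c0 : D := γ • (1 : D) with hc0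
  have hc0m : ∀ y : D, c0 * y = γ • y := by
    intro y
    rw [hc0, smul_mul_assoc, one_mul]
  obtain ⟨M, t, s, ht, hs, hs0, hst⟩ := h.frac (z⁻¹ * c0 * z)
  have hst' : c0 * z * s = z * t := by
    rw [← hst, ← mul_assoc, ← mul_assoc, ← mul_assoc, mul_inv_cancel₀ hz, one_mul]
  let T : D →ₗ[K] D :=
    { toFun := fun y => y * t - c0 * y * s
      map_add' := by
        intro x y
        noncomm_ring
      map_smul' := by
        intro a y
        simp only [RingHom.id_apply]
        rw [hc0m, hc0m, smul_sub, smul_mul_assoc a y t, smul_mul_assoc γ (a • y) s,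
          smul_mul_assoc a y s, smul_mul_assoc γ y s, smul_smul, smul_smul, hγ] }
  have hTdef : ∀ y, T y = y * t - c0 * y * s := fun _ => rfl
  have hTX : ∀ n, ∀ y ∈ Xs K G z n, T y ∈ Xs K G z (n + M) := by
    intro n y hy
    rw [hTdef]
    refine Submodule.sub_mem _ (Xs_mul h hy ht) ?_
    rw [hc0m, smul_mul_assoc]
    exact Submodule.smul_mem _ _ (Xs_mul h hy hs)
  have hTker : LinearMap.ker T ≤ Submodule.span K {z} := by
    intro y hy
    rw [LinearMap.mem_ker, hTdef, sub_eq_zero] at hy
    have h1 : y * (z⁻¹ * c0 * z) = c0 * y := by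
      apply mul_right_cancel₀ hs0
      rw [mul_assoc y, hst, hy]
    have h2 : c0 * (y * z⁻¹) = (y * z⁻¹) * c0 := by
      rw [← mul_assoc, ← h1]
      simp only [mul_assoc]
      rw [mul_inv_cancel₀ hz, mul_one]
    obtain ⟨a, ha⟩ := hker _ h2
    rw [Submodule.mem_span_singleton]
    refine ⟨a, ?_⟩
    calc a • z = (a • (1 : D)) * z := by rw [smul_mul_assoc, one_mul]
      _ = y := by rw [← ha, mul_assoc, inv_mul_cancel₀ hz, mul_one]
  set e := d j + 1 with he
  have he1 : 1 ≤ e := by omega
  -- the images of the powers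
  have hTu : ∀ l, 1 ≤ l → T (z * u j ^ l) ∈ Xs K G z (M + (l * e - p ^ padicValNat p l)) := by
    intro l hl
    have h1 : T (z * u j ^ l) = z * (u j ^ l * t - t * u j ^ l) -
        c0 * (z * (u j ^ l * s - s * u j ^ l)) := by
      have h2 : c0 * (z * (s * u j ^ l)) = z * (t * u j ^ l) := by
        rw [← mul_assoc z s, ← mul_assoc c0, ← mul_assoc c0, hst', mul_assoc]
      rw [hTdef, mul_sub, mul_sub, mul_sub, h2]
      simp only [mul_assoc]
      abel
    rw [h1, hc0m]
    exact Submodule.sub_mem _ (mem_Xs (comm_pow h j l hl ht))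
      (Submodule.smul_mem _ _ (mem_Xs (comm_pow h j l hl hs)))
  set f : ℕ → ℕ := fun n => finrank K (Xs K G z n) with hf
  have hfmono : Monotone f := fun a b hab => by
    have := hfin b
    exact Submodule.finrank_mono (Xs_mono h z hab)
  -- the dimension count
  have hcount : ∀ N m, f m + ((Finset.Icc 1 (p ^ N)).filter
      (fun l => m < l * e ∧ l * e ≤ m + p ^ padicValNat p l)).card ≤ f (m + M) + 1 := by
    intro N m
    have hW : ∀ k, ∃ W : Submodule K D, FiniteDimensional K W ∧
        W ≤ Xs K G z (max m (k * e)) ∧ (∀ y ∈ W, T y ∈ Xs K G z (m + M)) ∧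
        f m + ((Finset.Icc 1 k).filter
          (fun l => m < l * e ∧ l * e ≤ m + p ^ padicValNat p l)).card ≤ finrank K W := by
      intro k
      induction k with
      | zero =>
        refine ⟨Xs K G z m, hfin m, Xs_mono h z (le_max_left _ _), hTX m, ?_⟩
        simp [hf]
      | succ k ih =>
        obtain ⟨W, hWf, hWle, hWT, hWc⟩ := ih
        by_cases hk : m < (k + 1) * e ∧ (k + 1) * e ≤ m + p ^ padicValNat p (k + 1)
        · set y := z * u j ^ (k + 1) with hy
          have hyW : y ∉ W := by
            intro hyW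
            refine hcon (k + 1) (by omega) (Xs_mono h z ?_ (hWle hyW))
            apply max_le
            · omega
            · rw [Nat.succ_mul]
              omega
          have hyX : y ∈ Xs K G z ((k + 1) * e) := mem_Xs (h.pow_mem (h.umem j) (k + 1))
          have hfs : FiniteDimensional K ↥(Submodule.span K {y}) := inferInstance
          refine ⟨W ⊔ Submodule.span K {y}, inferInstance, ?_, ?_, ?_⟩
          · refine sup_le (hWle.trans (Xs_mono h z ?_)) ?_
            · refine max_le_max le_rfl (Nat.mul_le_mul_right _ (by omega))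
            · rw [Submodule.span_singleton_le_iff_mem]
              exact Xs_mono h z (le_max_right _ _) hyX
          · intro x hx
            obtain ⟨w, hw, v, hv, rfl⟩ := Submodule.mem_sup.1 hx
            rw [map_add]
            refine Submodule.add_mem _ (hWT w hw) ?_
            obtain ⟨a, rfl⟩ := Submodule.mem_span_singleton.1 hv
            rw [map_smul]
            refine Submodule.smul_mem _ _ (Xs_mono h z ?_ (hTu (k + 1) (by omega)))
            omega
          · have h1 : W < W ⊔ Submodule.span K {y} := by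
              refine lt_of_le_of_ne le_sup_left fun h2 => hyW ?_
              rw [h2]
              exact Submodule.mem_sup_right (Submodule.mem_span_singleton_self y)
            have h2 := Submodule.finrank_lt_finrank_of_lt h1
            have h3 : (Finset.Icc 1 (k + 1)).filter
                (fun l => m < l * e ∧ l * e ≤ m + p ^ padicValNat p l) =
                insert (k + 1) ((Finset.Icc 1 k).filter
                (fun l => m < l * e ∧ l * e ≤ m + p ^ padicValNat p l)) := by
              ext l
              simp only [mem_filter, mem_Icc, mem_insert]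
              constructor
              · rintro ⟨⟨h4, h5⟩, h6⟩
                rcases Nat.lt_or_ge k l with h7 | h7
                · exact Or.inl (by omega)
                · exact Or.inr ⟨⟨h4, h7⟩, h6⟩
              · rintro (rfl | ⟨⟨h4, h5⟩, h6⟩)
                · exact ⟨⟨by omega, le_rfl⟩, hk⟩
                · exact ⟨⟨h4, by omega⟩, h6⟩
            rw [h3, Finset.card_insert_of_notMem (by simp)]
            omega
        · refine ⟨W, hWf, hWle.trans (Xs_mono h z
            (max_le_max le_rfl (Nat.mul_le_mul_right _ (by omega)))), hWT, ?_⟩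
          have h3 : (Finset.Icc 1 (k + 1)).filter
              (fun l => m < l * e ∧ l * e ≤ m + p ^ padicValNat p l) =
              (Finset.Icc 1 k).filter
              (fun l => m < l * e ∧ l * e ≤ m + p ^ padicValNat p l) := by
            ext l
            simp only [mem_filter, mem_Icc]
            constructor
            · rintro ⟨⟨h4, h5⟩, h6⟩
              refine ⟨⟨h4, ?_⟩, h6⟩
              by_contra h7
              obtain rfl : l = k + 1 := by omega
              exact hk h6
            · rintro ⟨⟨h4, h5⟩, h6⟩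
              exact ⟨⟨h4, by omega⟩, h6⟩
          rw [h3]
          exact hWc
    obtain ⟨W, hWf, _, hWT, hWc⟩ := hW (p ^ N)
    have h1 := finrank_le_map T W z hTker
    have h2 : W.map T ≤ Xs K G z (m + M) := by
      rintro _ ⟨y, hy, rfl⟩
      exact hWT y hy
    have h3 := hfin (m + M)
    have h4 := Submodule.finrank_mono h2
    simp only [hf]
    simp only [hf] at hWc
    omega
  -- summation
  have hsum : ∀ N, ∑ l ∈ Finset.Icc 1 (p ^ N), p ^ padicValNat p l ≤
      M * f (p ^ N * e + M) + p ^ N * e := by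
    intro N
    set X := p ^ N * e with hX
    have h1 : ∑ m ∈ range X, (f m + ((Finset.Icc 1 (p ^ N)).filter
        (fun l => m < l * e ∧ l * e ≤ m + p ^ padicValNat p l)).card) ≤
        ∑ m ∈ range X, (f (m + M) + 1) := Finset.sum_le_sum fun m _ => hcount N m
    rw [Finset.sum_add_distrib, Finset.sum_add_distrib] at h1
    have h2 := FD29.sum_shift_le f hfmono M X
    have h3 : ∑ m ∈ range X, ((Finset.Icc 1 (p ^ N)).filter
        (fun l => m < l * e ∧ l * e ≤ m + p ^ padicValNat p l)).card =
        ∑ l ∈ Finset.Icc 1 (p ^ N), p ^ padicValNat p l := by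
      simp only [Finset.card_filter]
      rw [Finset.sum_comm]
      refine Finset.sum_congr rfl fun l hl => ?_
      rw [← Finset.card_filter]
      rw [mem_Icc] at hl
      have h4 : p ^ padicValNat p l ≤ l := Nat.le_of_dvd (by omega) pow_padicValNat_dvd
      have h5 : l ≤ l * e := Nat.le_mul_of_pos_right _ he1
      have h6 : l * e ≤ X := Nat.mul_le_mul_right _ hl.2
      have h7 : (range X).filter (fun m => m < l * e ∧ l * e ≤ m + p ^ padicValNat p l) =
          Finset.Ico (l * e - p ^ padicValNat p l) (l * e) := by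
        ext m
        simp only [mem_filter, mem_range, mem_Ico]
        omega
      rw [h7, Nat.card_Ico]
      omega
    rw [h3] at h1
    simp only [Finset.sum_const, card_range, smul_eq_mul, mul_one] at h1
    omega
  -- contradiction
  set N := p * (M * C * (e + M + 1) + e) + 1 with hN
  have h1 := FD29.sum_ppart p N
  have h2 := hsum N
  have h3 : f (p ^ N * e + M) ≤ C * (p ^ N * e + M + 1) := hC _
  have hP1 : 1 ≤ p ^ N := Nat.one_le_pow _ _ hp.out.pos
  have h4 : p ^ N * e + M + 1 ≤ p ^ N * (e + M + 1) := by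
    have : p ^ N * (e + M + 1) = p ^ N * e + p ^ N * (M + 1) := by ring
    have h5 : 1 * (M + 1) ≤ p ^ N * (M + 1) := Nat.mul_le_mul_right _ hP1
    omega
  have h5 : N * p ^ N ≤ (p * (M * C * (e + M + 1) + e)) * p ^ N := by
    calc N * p ^ N ≤ p * ∑ i ∈ Finset.Icc 1 (p ^ N), p ^ padicValNat p i := h1
      _ ≤ p * (M * f (p ^ N * e + M) + p ^ N * e) := Nat.mul_le_mul_left _ h2
      _ ≤ p * (M * (C * (p ^ N * (e + M + 1))) + p ^ N * e) := by
          gcongr
          exact h3.trans (Nat.mul_le_mul_left _ h4)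
      _ = _ := by ring
  have h6 := Nat.le_of_mul_le_mul_right h5 hP1
  omega

theorem fall_mul (h : Cor p G g u d c E) [IsScalarTower K D D] (z : D) (j : Fin g) {l : ℕ}
    (hl : 1 ≤ l) (hlu : z * u j ^ l ∈ Xs K G z (l * (d j + 1) - 1)) {k : ℕ} (hk : 1 ≤ k) :
    z * u j ^ (l * k) ∈ Xs K G z (l * k * (d j + 1) - 1) := by
  obtain ⟨k, rfl⟩ : ∃ k', k = k' + 1 := ⟨k - 1, by omega⟩
  have h1 : z * u j ^ (l * (k + 1)) = (z * u j ^ l) * u j ^ (l * k) := by
    rw [mul_assoc, ← pow_add]
    congr 2
    ring
  rw [h1]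
  refine Xs_mono h z ?_ (Xs_mul h hlu (h.pow_mem (h.umem j) (l * k)))
  have h2 : l * (k + 1) * (d j + 1) = l * (d j + 1) + l * k * (d j + 1) := by ring
  have h3 : 1 ≤ l * (d j + 1) := Nat.mul_pos hl (by omega)
  omega

end

end M3

/-- M3 -/
theorem drop (h : Cor p G g u d c E) [Fact p.Prime] (K : Type) [DivisionRing K] [Module K D]
    [IsScalarTower K D D] (z : D) (hz : z ≠ 0) (hfin : ∀ n, FiniteDimensional K (Xs K G z n))
    (γ : K) (hγ : ∀ a : K, γ * a = a * γ)
    (hker : ∀ y : D, (γ • (1 : D)) * y = y * (γ • (1 : D)) → ∃ a : K, y = a • (1 : D)) (C : ℕ)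
    (hC : ∀ N, finrank K (Xs K G z N) ≤ C * (N + 1)) : FiniteDimensional K D := by
  classical
  choose l hl1 hl using fun j => M3.exists_fall h z hz hfin γ hγ hker C hC j
  set Q := ∏ j, l j with hQ
  have hQ1 : 1 ≤ Q := Nat.one_le_iff_ne_zero.2 (Finset.prod_ne_zero_iff.2 fun j _ => by
    have := hl1 j
    omega)
  have hfall : ∀ j, z * u j ^ Q ∈ Xs K G z (Q * (d j + 1) - 1) := by
    intro j
    obtain ⟨k, hk⟩ : l j ∣ Q := Finset.dvd_prod_of_mem l (Finset.mem_univ j)
    have hk1 : 1 ≤ k := by
      rcases Nat.eq_zero_or_pos k with rfl | h0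
      · omega
      · exact h0
    rw [hk]
    exact M3.fall_mul h z j (hl1 j) (hl j) hk1
  have hstep : ∀ n, c * Q < n → Xs K G z n ≤ Xs K G z (n - 1) := by
    intro n hn
    refine Submodule.span_le.2 ?_
    rintro _ ⟨x, hx, rfl⟩
    obtain ⟨y, hy, hxy⟩ := h.div Q n hn x hx
    change z * x ∈ Xs K G z (n - 1)
    have h1 : z * x = z * (x - ∑ j, u j ^ Q * y j) + ∑ j, z * u j ^ Q * y j := by
      rw [mul_sub, Finset.mul_sum]
      simp only [mul_assoc]
      abel
    rw [h1]
    refine Submodule.add_mem _ (mem_Xs hxy) (Submodule.sum_mem _ fun j _ => ?_)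
    rcases hy j with h0 | ⟨hle, hyj⟩
    · rw [h0, mul_zero]
      exact Submodule.zero_mem _
    · refine Xs_mono h z ?_ (Xs_mul h (hfall j) hyj)
      have h3 : 1 ≤ (d j + 1) * Q := Nat.mul_pos (by omega) hQ1
      have h4 : Q * (d j + 1) = (d j + 1) * Q := mul_comm _ _
      omega
  set V := Xs K G z (c * Q) with hV
  have hall : ∀ n, Xs K G z n ≤ V := by
    intro n
    induction n with
    | zero => exact Xs_mono h z (Nat.zero_le _)
    | succ n ih =>
      rcases Nat.lt_or_ge (c * Q) (n + 1) with h1 | h1
      · exact (hstep (n + 1) h1).trans ih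
      · exact Xs_mono h z h1
  have hVfin : FiniteDimensional K V := hfin _
  have hVG : ∀ n, ∀ x ∈ G n, ∀ y ∈ V, y * x ∈ V := fun n x hx y hy => hall _ (Xs_mul h hy hx)
  have hVD : ∀ w : D, ∀ y ∈ V, y * w ∈ V := by
    intro w y hy
    obtain ⟨n, a, b, ha, hb, hb0, hwb⟩ := h.frac w
    let R : D →ₗ[K] D :=
      { toFun := fun y => y * b
        map_add' := fun x y => add_mul x y b
        map_smul' := fun a y => smul_mul_assoc a y b }
    let R' : V →ₗ[K] V := R.restrict (hVG n b hb)
    have hinj : Function.Injective R' := by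
      intro x y hxy
      apply Subtype.ext
      have h2 : (x : D) * b = (y : D) * b := congrArg Subtype.val hxy
      exact mul_right_cancel₀ hb0 h2
    obtain ⟨y', hy'⟩ := (LinearMap.injective_iff_surjective.1 hinj) ⟨_, hVG n a ha y hy⟩
    have h3 : (y' : D) * b = y * a := congrArg Subtype.val hy'
    have h4 : y * w = y' := by
      apply mul_right_cancel₀ hb0
      rw [h3, mul_assoc, hwb]
    rw [h4]
    exact y'.2
  have htop : V = ⊤ := by
    rw [eq_top_iff]
    intro w _
    have h1 := hVD (z⁻¹ * w) z (z_mem_Xs h z _)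
    rwa [← mul_assoc, mul_inv_cancel₀ hz, one_mul] at h1
  rw [htop] at hVfin
  exact Module.Finite.equiv (Submodule.topEquiv : (⊤ : Submodule K D) ≃ₗ[K] D)

end DL73
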