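import Pool.Agent.DL73.Chain
import Pool.Agent.DL73.Ext
import Pool.Agent.DL73.M3
import Pool.Agent.CG37.Alg

/-!
# Elements of a large commutative subfield are algebraic over the centre
-/

set_option autoImplicit false

namespace DL73

open Finset Module BI29

variable {κ D : Type} [Field κ] [DivisionRing D] [Algebra κ D]
variable {p : ℕ} {G : ℕ → Submodule κ D} {g : ℕ} {u : Fin g → D} {d : Fin g → ℕ} {c E : ℕ}

theorem alg_all (h : Cor p G g u d c E) [hp : Fact p.Prime] {r C₀ : ℕ}
    (hgr : ∀ N, finrank κ (G N) ≤ C₀ * (N + 1) ^ r) (L : Type) [Field L] [Algebra κ L]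
    [Module L D] [IsScalarTower L D D] [IsScalarTower κ L D] {n : ℕ} (x : Fin n → L)
    (hx : AlgebraicIndependent κ x) (hr : r ≤ n + 1) (l : L) :
    ∃ P : Polynomial (Subring.center D), P ≠ 0 ∧ Polynomial.aeval (l • (1 : D)) P = 0 := by
  obtain ⟨K, z, C, hz, -, hC⟩ := chain h hgr L x hx hr
  obtain ⟨θ, hθ⟩ : ∃ θ : D, θ = l • (1 : D) := ⟨_, rfl⟩
  rw [← hθ]
  have hKD : IsScalarTower κ K D := by
    refine ⟨fun a b x => ?_⟩
    change ((a • b : K) : L) • x = a • ((b : L) • x)
    rw [IntermediateField.coe_smul, smul_assoc]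
  let ρ0 : K →+* D := (RingHom.smulOneHom (R := L) (S := D)).comp (algebraMap K L)
  have hρ0 : ∀ (a : K) (x : D), ρ0 a * x = a • x := by
    intro a x
    change ((a : L) • (1 : D)) * x = (a : L) • x
    rw [smul_mul_assoc, one_mul]
  have hmem : ∀ a : K, ρ0 a ∈ Subring.centralizer ({θ} : Set D) := by
    intro a
    rw [Subring.mem_centralizer_iff]
    intro g hg
    rw [Set.mem_singleton_iff] at hg
    subst hg
    rw [hρ0, hθ]
    change (l • (1 : D)) * ((a : L) • (1 : D)) = (a : L) • l • (1 : D)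
    rw [smul_mul_assoc, one_mul, smul_smul, smul_smul, mul_comm]
  let ρ : K →+* Subring.centralizer ({θ} : Set D) := ρ0.codRestrict _ hmem
  have hρ : ∀ (a : K) (x : D), ρ a • x = a • x := fun a x => hρ0 a x
  have hθmem : θ ∈ Subring.centralizer ({θ} : Set D) := by
    rw [Subring.mem_centralizer_iff]
    intro g hg
    rw [Set.mem_singleton_iff] at hg
    rw [hg]
  have hext := fun N => by
    have := (Xs_fin (K := K) h z N).1
    exact Xs_ext (K := K) (K' := Subring.centralizer ({θ} : Set D)) h ρ hρ z N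
  refine CG37.alg_of_fin θ ?_
  refine drop h (Subring.centralizer ({θ} : Set D)) z hz (fun N => (hext N).1) ⟨θ, hθmem⟩ ?_ ?_ C
    (fun N => (hext N).2.trans (hC N))
  · intro a
    apply Subtype.ext
    exact Subring.mem_centralizer_iff.1 a.2 θ rfl
  · intro y hy
    have h1 : ((⟨θ, hθmem⟩ : Subring.centralizer ({θ} : Set D)) • (1 : D)) = θ := mul_one θ
    rw [h1] at hy
    refine ⟨⟨y, ?_⟩, (mul_one y).symm⟩
    rw [Subring.mem_centralizer_iff]
    intro g hg
    rw [Set.mem_singleton_iff] at hg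
    rw [hg]
    exact hy

end DL73
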