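import Mathlib

/-!
# Algebraic independence from an injective evaluation
-/

set_option autoImplicit false

namespace DL73

variable {κ D : Type} [Field κ] [DivisionRing D] [Algebra κ D]

/-- M9 -/
theorem algInd_of_inj {L : Type} [Field L] [Algebra κ L] [Module L D] [IsScalarTower L D D]
    [IsScalarTower κ L D] {n : ℕ} (φ : MvPolynomial (Fin n) κ →ₐ[κ] D)
    (hφ : Function.Injective φ) (x : Fin n → L) (hx : ∀ i, x i • (1 : D) = φ (MvPolynomial.X i)) :
    AlgebraicIndependent κ x := by
  have key : ∀ P : MvPolynomial (Fin n) κ, φ P = (MvPolynomial.aeval x P) • (1 : D) := by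
    intro P
    induction P using MvPolynomial.induction_on with
    | C a =>
      rw [MvPolynomial.aeval_C, algebraMap_smul, ← MvPolynomial.algebraMap_eq, AlgHom.commutes,
        Algebra.algebraMap_eq_smul_one]
    | add P Q hP hQ => rw [map_add, map_add, hP, hQ, add_smul]
    | mul_X P i hP =>
      rw [map_mul, map_mul, hP, ← hx, MvPolynomial.aeval_X, smul_mul_assoc, one_mul, mul_smul]
  unfold AlgebraicIndependent
  intro P Q hPQ
  apply hφ
  rw [key, key, hPQ]

end DL73
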