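import Pool.Agent.BI29.Ops

/-!
# Twisted spans in a filtered division ring
-/

set_option autoImplicit false

namespace DL73

open Finset Module BI29

variable {κ D : Type} [Field κ] [DivisionRing D] [Algebra κ D]

/-- the left `K`-span of `z * G n` -/
def Xs (K : Type) [DivisionRing K] [Module K D] (G : ℕ → Submodule κ D) (z : D) (n : ℕ) :
    Submodule K D := Submodule.span K ((fun x => z * x) '' (G n : Set D))

variable {p : ℕ} {G : ℕ → Submodule κ D} {g : ℕ} {u : Fin g → D} {d : Fin g → ℕ} {c E : ℕ}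

section

variable {K : Type} [DivisionRing K] [Module K D]

theorem mem_Xs {z x : D} {n : ℕ} (hx : x ∈ G n) : z * x ∈ Xs K G z n :=
  Submodule.subset_span ⟨x, hx, rfl⟩

theorem Xs_mono (h : Cor p G g u d c E) (z : D) : Monotone (Xs K G z) := fun _ _ hab =>
  Submodule.span_mono (Set.image_mono (h.mono hab))

theorem z_mem_Xs (h : Cor p G g u d c E) (z : D) (n : ℕ) : z ∈ Xs K G z n := by
  have := mem_Xs (K := K) (z := z) (h.mono (Nat.zero_le n) h.one)
  rwa [mul_one] at this

theorem Xs_mul (h : Cor p G g u d c E) [IsScalarTower K D D] {z y x : D} {m n : ℕ}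
    (hy : y ∈ Xs K G z m) (hx : x ∈ G n) : y * x ∈ Xs K G z (m + n) := by
  refine Submodule.span_induction (p := fun y _ => y * x ∈ Xs K G z (m + n)) ?_ ?_ ?_ ?_ hy
  · rintro _ ⟨a, ha, rfl⟩
    change z * a * x ∈ _
    rw [mul_assoc]
    exact mem_Xs (h.mul _ _ _ _ ha hx)
  · rw [zero_mul]
    exact Submodule.zero_mem _
  · intro y y' _ _ hy hy'
    rw [add_mul]
    exact Submodule.add_mem _ hy hy'
  · intro a y _ hy
    rw [smul_mul_assoc]
    exact Submodule.smul_mem _ _ hy

/-- a smaller multiple -/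
theorem Xs_mul_left (h : Cor p G g u d c E) {z s : D} {w n : ℕ} (hs : s ∈ G w) :
    Xs K G (z * s) n ≤ Xs K G z (n + w) := by
  refine Submodule.span_le.2 ?_
  rintro _ ⟨x, hx, rfl⟩
  change z * s * x ∈ _
  rw [mul_assoc, add_comm]
  exact mem_Xs (h.mul _ _ _ _ hs hx)

theorem Xs_fin (h : Cor p G g u d c E) [Algebra κ K] [IsScalarTower κ K D] (z : D) (n : ℕ) :
    FiniteDimensional K (Xs K G z n) ∧ finrank K (Xs K G z n) ≤ finrank κ (G n) := by
  classical
  have := h.fin n
  let b := finBasis κ (G n)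
  have e1 : Xs K G z n = Submodule.span K (Set.range fun i => z * (b i : D)) := by
    apply le_antisymm
    · refine Submodule.span_le.2 ?_
      rintro _ ⟨x, hx, rfl⟩
      have h1 : x = ∑ i, b.repr ⟨x, hx⟩ i • (b i : D) := by
        have h2 := congrArg (G n).subtype (b.sum_repr ⟨x, hx⟩)
        rw [map_sum] at h2
        exact h2.symm
      change z * x ∈ _
      rw [h1, Finset.mul_sum]
      refine Submodule.sum_mem _ fun i _ => ?_
      rw [mul_smul_comm, ← algebraMap_smul K]
      exact Submodule.smul_mem _ _ (Submodule.subset_span ⟨i, rfl⟩)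
    · refine Submodule.span_le.2 ?_
      rintro _ ⟨i, rfl⟩
      exact mem_Xs (b i).2
  refine ⟨?_, ?_⟩
  · rw [e1]
    exact FiniteDimensional.span_of_finite K (Set.finite_range _)
  · rw [e1]
    refine (finrank_range_le_card _).trans ?_
    rw [Fintype.card_fin]

end

end DL73
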