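import Pool.Agent.DL73.Step

/-!
# A chain of fields over which the twisted spans grow more and more slowly
-/

set_option autoImplicit false

namespace DL73

open Finset Module BI29

variable {κ D : Type} [Field κ] [DivisionRing D] [Algebra κ D]
variable {p : ℕ} {G : ℕ → Submodule κ D} {g : ℕ} {u : Fin g → D} {d : Fin g → ℕ} {c E : ℕ}


section

variable {L : Type} [Field L] [Algebra κ L] [Module L D] [IsScalarTower L D D]
  [IsScalarTower κ L D]

omit [Algebra κ D] [IsScalarTower κ L D] in
private theorem chain_tower (K : IntermediateField κ L) : IsScalarTower K D D :=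
  ⟨fun a x y => smul_mul_assoc (a : L) x y⟩

omit [IsScalarTower L D D] in
private theorem chain_tower' (K : IntermediateField κ L) : IsScalarTower κ K D := by
  refine ⟨fun a b x => ?_⟩
  change ((a • b : K) : L) • x = a • ((b : L) • x)
  rw [IntermediateField.coe_smul, smul_assoc]

/-- one step along the chain -/
private theorem chain_step (h : Cor p G g u d c E) (K K' : IntermediateField κ L) (hle : K ≤ K')
    (y : L) (hy : y ∈ K') (hyt : Transcendental K y) (δ C : ℕ) (z : D) (hz : z ≠ 0)
    (hgr : ∀ N, finrank K (Xs K G z N) ≤ C * (N + 1) ^ (δ + 1)) :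
    ∃ z', z' ≠ 0 ∧ ∃ C', ∀ N, finrank K' (Xs K' G z' N) ≤ C' * (N + 1) ^ δ := by
  let _ : Algebra K K' := (IntermediateField.inclusion hle).toRingHom.toAlgebra
  have : IsScalarTower κ K K' := by
    refine ⟨fun a b x => ?_⟩
    apply Subtype.ext
    change ((a • b : K) : L) * (x : L) = ((a • ((IntermediateField.inclusion hle b) * x) : K') : L)
    rw [IntermediateField.coe_smul, IntermediateField.coe_smul, smul_mul_assoc]
    rfl
  have : IsScalarTower K K' D := by
    refine ⟨fun a b x => ?_⟩
    change ((a : L) * (b : L)) • x = (a : L) • ((b : L) • x)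
    rw [mul_smul]
  have := chain_tower (D := D) K
  have := chain_tower (D := D) K'
  have := chain_tower' (D := D) K
  have := chain_tower' (D := D) K'
  have hχ : LinearIndependent K (fun n : ℕ => (⟨y, hy⟩ : K') ^ n) := by
    have h1 : LinearIndependent K (fun n : ℕ => y ^ n) := by
      have h2 := (Polynomial.basisMonomials K).linearIndependent.map'
        (Polynomial.aeval (R := K) y).toLinearMap
        (LinearMap.ker_eq_bot.2 (transcendental_iff_injective.1 hyt))
      have h3 : (fun n : ℕ => y ^ n) =
          (Polynomial.aeval (R := K) y).toLinearMap ∘ (Polynomial.basisMonomials K) := by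
        funext n
        simp
      rw [h3]
      exact h2
    let f : K' →ₗ[K] L :=
      { toFun := fun a => (a : L)
        map_add' := fun _ _ => rfl
        map_smul' := fun a b => by
          change (a : L) * (b : L) = _
          rw [RingHom.id_apply, Algebra.smul_def]
          rfl }
    refine LinearIndependent.of_comp f ?_
    exact h1
  exact step h K K' ⟨y, hy⟩ hχ δ C z hz hgr

end

/-- M5 -/
theorem chain (h : Cor p G g u d c E) {r C₀ : ℕ}
    (hgr : ∀ N, finrank κ (G N) ≤ C₀ * (N + 1) ^ r) (L : Type) [Field L] [Algebra κ L]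
    [Module L D] [IsScalarTower L D D] [IsScalarTower κ L D] {n : ℕ} (x : Fin n → L)
    (hx : AlgebraicIndependent κ x) (hr : r ≤ n + 1) :
    ∃ (K : IntermediateField κ L) (z : D) (C : ℕ), z ≠ 0 ∧
      K ≤ IntermediateField.adjoin κ (Set.range x) ∧
      ∀ N, finrank K (Xs K G z N) ≤ C * (N + 1) := by
  let Kj : ℕ → IntermediateField κ L := fun j =>
    IntermediateField.adjoin κ (x '' {i | (i : ℕ) < j})
  have hK : ∀ j, Kj j ≤ IntermediateField.adjoin κ (Set.range x) := fun j =>
    IntermediateField.adjoin.mono κ _ _ (Set.image_subset_range _ _)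
  have h0 : ∀ N, finrank (Kj 0) (Xs (Kj 0) G (1 : D) N) ≤ C₀ * (N + 1) ^ r := by
    intro N
    have := chain_tower' (D := D) (Kj 0)
    exact ((Xs_fin h (K := Kj 0) 1 N).2).trans (hgr N)
  have key : ∀ j, j + 1 ≤ r → ∃ (z : D) (C : ℕ), z ≠ 0 ∧
      ∀ N, finrank (Kj j) (Xs (Kj j) G z N) ≤ C * (N + 1) ^ (r - j) := by
    intro j
    induction j with
    | zero =>
      intro _
      exact ⟨1, C₀, one_ne_zero, by simpa using h0⟩
    | succ j ih =>
      intro hj
      obtain ⟨z, C, hz, hC⟩ := ih (by omega)
      have hjn : j < n := by omega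
      have hle : Kj j ≤ Kj (j + 1) := by
        refine IntermediateField.adjoin.mono κ _ _ (Set.image_mono ?_)
        intro i hi
        exact Nat.lt_succ_of_lt hi
      have hmem : x ⟨j, hjn⟩ ∈ Kj (j + 1) :=
        IntermediateField.subset_adjoin κ _ ⟨⟨j, hjn⟩, Nat.lt_succ_self j, rfl⟩
      have htr : Transcendental (Kj j) (x ⟨j, hjn⟩) := by
        refine IntermediateField.transcendental_adjoin_iff.2 ?_
        exact hx.transcendental_adjoin (by simp)
      have hδ : r - j = (r - (j + 1)) + 1 := by omega
      rw [hδ] at hC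
      obtain ⟨z', hz', C', hC'⟩ := chain_step h (Kj j) (Kj (j + 1)) hle _ hmem htr _ C z hz hC
      exact ⟨z', C', hz', hC'⟩
  rcases Nat.eq_zero_or_pos r with rfl | hpos
  · refine ⟨Kj 0, 1, C₀, one_ne_zero, hK 0, fun N => (h0 N).trans ?_⟩
    rw [pow_zero]
    exact Nat.mul_le_mul_left _ (Nat.succ_pos N)
  · obtain ⟨z, C, hz, hC⟩ := key (r - 1) (by omega)
    refine ⟨Kj (r - 1), z, C, hz, hK _, fun N => ?_⟩
    have h1 : r - (r - 1) = 1 := by omega
    have := hC N
    rw [h1, pow_one] at this
    exact this

end DL73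

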