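import Mathlib

/-!
# The double centraliser of a commuting set in a division ring
-/

set_option autoImplicit false

namespace DL73

open Finset Module

/-- M6 (Pool/Agent/DL73/Dbl.lean) the double centraliser of a commuting set -/
theorem exists_field (κ : Type) {D : Type} [Field κ] [DivisionRing D] [Algebra κ D] (S : Set D)
    (hS : ∀ a ∈ S, ∀ b ∈ S, a * b = b * a) :
    ∃ (L : Type) (_ : Field L) (_ : Algebra κ L) (_ : Module L D) (_ : IsScalarTower L D D)
      (_ : IsScalarTower κ L D), ∀ s ∈ S, ∃ l : L, l • (1 : D) = s := by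
  let C := Subalgebra.centralizer κ (Set.centralizer S)
  have hsub : S ⊆ Set.centralizer S := fun a ha b hb => hS b hb a ha
  have hmem : ∀ a : C, (a : D) ∈ Set.centralizer S := fun a b hb => by
    exact (Subalgebra.mem_centralizer_iff κ).1 a.2 b (hsub hb)
  have hcomm : ∀ a b : C, a * b = b * a := by
    intro a b
    apply Subtype.ext
    exact (Subalgebra.mem_centralizer_iff κ).1 b.2 a (hmem a)
  have hinv : ∀ {a : C}, a ≠ 0 → ∃ b : C, a * b = 1 := by
    intro a ha
    have ha' : (a : D) ≠ 0 := fun h0 => ha (Subtype.ext h0)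
    refine ⟨⟨(a : D)⁻¹, ?_⟩, Subtype.ext (mul_inv_cancel₀ ha')⟩
    exact Set.inv_mem_centralizer₀ a.2
  have hF : IsField C :=
    { exists_pair_ne := ⟨0, 1, zero_ne_one⟩
      mul_comm := hcomm
      mul_inv_cancel := hinv }
  refine ⟨C, hF.toField, (inferInstance : Algebra κ C), (inferInstance : Module C D), ?_, ?_, ?_⟩
  · exact ⟨fun a x y => smul_mul_assoc (a : D) x y⟩
  · refine ⟨fun a b x => ?_⟩
    exact smul_mul_assoc a (b : D) x
  · intro s hs
    refine ⟨⟨s, ?_⟩, mul_one s⟩
    exact Set.subset_centralizer_centralizer hs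

end DL73

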