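import Pool.Agent.DL73.Base

/-!
# The gap between polynomial growths of twisted spans (helper95)

The monomials `z v_i u^J` are ordered by degree, then lexicographically; those which are not in the
span of the smaller ones form a basis, and their exponents form down-closed sets.
-/

set_option autoImplicit false

namespace DL73

open Finset Module BI29

namespace Gp

variable {κ D : Type} [Field κ] [DivisionRing D] [Algebra κ D]
variable {p : ℕ} {G : ℕ → Submodule κ D} {g : ℕ} {u : Fin g → D} {d : Fin g → ℕ} {c E : ℕ}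

/-- ordered products of powers over a list of indices -/
def P (u : Fin g → D) (l : List (Fin g)) (J : Fin g → ℕ) : D := (l.map fun j => u j ^ J j).prod

/-- the degree of such a product -/
def dl (d : Fin g → ℕ) (l : List (Fin g)) (J : Fin g → ℕ) : ℕ :=
  (l.map fun j => J j * (d j + 1)).sum

theorem P_mem (h : Cor p G g u d c E) (l : List (Fin g)) (J : Fin g → ℕ) :
    P u l J ∈ G (dl d l J) := by
  induction l with
  | nil => simpa [P, dl] using h.one
  | cons j l ih =>
    simp only [P, dl, List.map_cons, List.prod_cons, List.sum_cons]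
    exact h.mul _ _ _ _ (h.pow_mem (h.umem j) (J j)) ih

/-- the monomials -/
def W (u : Fin g → D) (J : Fin g → ℕ) : D := P u (List.finRange g) J

/-- the degree of a monomial -/
def dg (d : Fin g → ℕ) (J : Fin g → ℕ) : ℕ := ∑ j, J j * (d j + 1)

theorem dl_finRange (J : Fin g → ℕ) : dl d (List.finRange g) J = dg d J := by
  simp only [dl, dg, Fin.sum_univ_def]

theorem W_mem (h : Cor p G g u d c E) (J : Fin g → ℕ) : W u J ∈ G (dg d J) := by
  rw [← dl_finRange]
  exact P_mem h _ _

theorem W_zero : W u (0 : Fin g → ℕ) = 1 := by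
  simp [W, P]

theorem dg_single (J : Fin g → ℕ) (j : Fin g) :
    dg d (J + Pi.single j 1) = dg d J + (d j + 1) := by
  simp only [dg, Pi.add_apply, add_mul, Finset.sum_add_distrib]
  congr 1
  rw [Finset.sum_eq_single j]
  · simp
  · intro b _ hb
    rw [Pi.single_eq_of_ne hb, zero_mul]
  · intro hj
    exact absurd (Finset.mem_univ j) hj

theorem W_mul (h : Cor p G g u d c E) (J : Fin g → ℕ) (j : Fin g) :
    W u J * u j - W u (J + Pi.single j 1) ∈ G (dg d J + d j) := by
  obtain ⟨l1, l2, hl⟩ := List.append_of_mem (List.mem_finRange j)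
  have hnd := List.nodup_finRange g
  rw [hl] at hnd
  have hj1 : j ∉ l1 := by
    intro hj
    have := List.disjoint_of_nodup_append hnd hj
    exact this List.mem_cons_self
  have hj2 : j ∉ l2 := by
    have := (List.nodup_append.1 hnd).2.1
    exact (List.nodup_cons.1 this).1
  have hP : ∀ l : List (Fin g), j ∉ l → P u l (J + Pi.single j 1) = P u l J := by
    intro l hjl
    unfold P
    congr 1
    refine List.map_congr_left fun i hi => ?_
    have hij : i ≠ j := by
      rintro rfl
      exact hjl hi
    rw [Pi.add_apply, Pi.single_eq_of_ne hij, add_zero]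
  have hsplit : ∀ J' : Fin g → ℕ, W u J' = P u l1 J' * (u j ^ J' j * P u l2 J') := by
    intro J'
    unfold W
    rw [hl]
    simp only [P, List.map_append, List.map_cons, List.prod_append, List.prod_cons]
  have hdeg : dg d J = dl d l1 J + (J j * (d j + 1) + dl d l2 J) := by
    rw [← dl_finRange, hl]
    simp only [dl, List.map_append, List.map_cons, List.sum_append, List.sum_cons]
  rw [hsplit J, hsplit (J + Pi.single j 1), hP l1 hj1, hP l2 hj2]
  have h1 : (J + (Pi.single j 1 : Fin g → ℕ)) j = J j + 1 := by simp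
  rw [h1, pow_succ]
  have h2 : P u l1 J * (u j ^ J j * P u l2 J) * u j - P u l1 J * (u j ^ J j * u j * P u l2 J) =
      P u l1 J * (u j ^ J j * -(u j ^ p ^ 0 * P u l2 J - P u l2 J * u j ^ p ^ 0)) := by
    simp only [pow_zero, pow_one, neg_sub, mul_sub, mul_assoc]
  rw [h2]
  have h3 := h.comm j 0 _ _ (P_mem h l2 J)
  have h4 := h.mul _ _ _ _ (P_mem h l1 J)
    (h.mul _ _ _ _ (h.pow_mem (h.umem j) (J j)) ((G _).neg_mem h3))
  refine h.mono ?_ h4
  rw [hdeg, pow_zero, one_mul]
  omega

/-- a finite set of generators over the monomials -/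
theorem gens (h : Cor p G g u d c E) : ∃ (q : ℕ) (v : Fin q → D) (nn : Fin q → ℕ),
    (∀ i, nn i ≤ c ∧ v i ∈ G (nn i)) ∧
    ∀ m, ∀ x ∈ G m, x ∈ Submodule.span κ
      {x | ∃ (i : Fin q) (J : Fin g → ℕ), nn i + dg d J ≤ m ∧ x = v i * W u J} := by
  classical
  have hfg : ∀ m, ∃ S : Finset D, Submodule.span κ (S : Set D) = G m := by
    intro m
    have := h.fin m
    exact (Submodule.fg_iff_finiteDimensional (G m)).2 this
  choose S hS using hfg
  let T : Finset (ℕ × D) := (range (c + 1)).biUnion fun m => (S m).image fun x => (m, x)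
  have hT : ∀ t : ℕ × D, t ∈ T ↔ t.1 ≤ c ∧ t.2 ∈ S t.1 := by
    rintro ⟨m, x⟩
    simp only [T, mem_biUnion, mem_range, mem_image, Prod.mk.injEq]
    constructor
    · rintro ⟨m', hm', x', hx', rfl, rfl⟩
      exact ⟨by omega, hx'⟩
    · rintro ⟨h1, h2⟩
      exact ⟨m, by omega, x, h2, rfl, rfl⟩
  let e := T.equivFin
  refine ⟨T.card, fun i => (e.symm i).1.2, fun i => (e.symm i).1.1, ?_, ?_⟩
  · intro i
    have h1 := (hT _).1 (e.symm i).2
    refine ⟨h1.1, ?_⟩
    rw [← hS]
    exact Submodule.subset_span h1.2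
  · have hmon : ∀ m m' : ℕ, m ≤ m' → Submodule.span κ
        {x | ∃ (i : Fin T.card) (J : Fin g → ℕ), (e.symm i).1.1 + dg d J ≤ m ∧
          x = (e.symm i).1.2 * W u J} ≤ Submodule.span κ
        {x | ∃ (i : Fin T.card) (J : Fin g → ℕ), (e.symm i).1.1 + dg d J ≤ m' ∧
          x = (e.symm i).1.2 * W u J} := by
      intro m m' hmm
      apply Submodule.span_mono
      rintro x ⟨i, J, h1, rfl⟩
      exact ⟨i, J, h1.trans hmm, rfl⟩
    change ∀ m, ∀ x ∈ G m, x ∈ Submodule.span κ
        {x | ∃ (i : Fin T.card) (J : Fin g → ℕ), (e.symm i).1.1 + dg d J ≤ m ∧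
          x = (e.symm i).1.2 * W u J}
    intro m
    induction m using Nat.strong_induction_on with
    | _ m ih =>
      intro x hx
      rcases Nat.lt_or_ge c m with hcm | hcm
      · obtain ⟨y, hy, hxy⟩ := h.div 1 m (by omega) x hx
        have hx1 : x = (x - ∑ j, u j ^ 1 * y j) + ∑ j, u j ^ 1 * y j := by abel
        rw [hx1]
        refine Submodule.add_mem _ (hmon (m - 1) m (by omega) (ih (m - 1) (by omega) _ hxy)) ?_
        refine Submodule.sum_mem _ fun j _ => ?_
        rcases hy j with h0 | ⟨h1, h2⟩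
        · rw [h0, mul_zero]
          exact Submodule.zero_mem _
        · rw [mul_one] at h1 h2
          have h3 : u j ^ 1 * y j = y j * u j + (u j ^ p ^ 0 * y j - y j * u j ^ p ^ 0) := by
            rw [pow_zero, pow_one]; abel
          rw [h3]
          have h4 := h.comm j 0 _ _ h2
          have h5 : m - (d j + 1) + p ^ 0 * d j ≤ m - 1 := by
            rw [pow_zero, one_mul]; omega
          refine Submodule.add_mem _ ?_
            (hmon (m - 1) m (by omega) (ih (m - 1) (by omega) _ (h.mono h5 h4)))
          have h6 := ih (m - (d j + 1)) (by omega) _ h2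
          refine Submodule.span_induction (p := fun y _ => y * u j ∈ Submodule.span κ
            {x | ∃ (i : Fin T.card) (J : Fin g → ℕ), (e.symm i).1.1 + dg d J ≤ m ∧
              x = (e.symm i).1.2 * W u J}) ?_ ?_ ?_ ?_ h6
          · rintro _ ⟨i, J, hiJ, rfl⟩
            have h7 : (e.symm i).1.2 * W u J * u j =
                (e.symm i).1.2 * W u (J + Pi.single j 1) +
                  (e.symm i).1.2 * (W u J * u j - W u (J + Pi.single j 1)) := by
              rw [mul_sub, ← mul_assoc]; abel
            rw [h7]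
            refine Submodule.add_mem _ (Submodule.subset_span
              ⟨i, J + Pi.single j 1, ?_, rfl⟩) ?_
            · rw [dg_single]; omega
            · have h8 : (e.symm i).1.2 ∈ G (e.symm i).1.1 := by
                rw [← hS]
                exact Submodule.subset_span ((hT _).1 (e.symm i).2).2
              have h9 := h.mul _ _ _ _ h8 (W_mul h J j)
              exact hmon (m - 1) m (by omega) (ih (m - 1) (by omega) _
                (h.mono (by omega) h9))
          · rw [zero_mul]
            exact Submodule.zero_mem _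
          · intro a b _ _ ha hb
            rw [add_mul]
            exact Submodule.add_mem _ ha hb
          · intro t a _ ha
            rw [smul_mul_assoc]
            exact Submodule.smul_mem _ _ ha
      · rw [← hS] at hx
        refine (Submodule.span_mono ?_) hx
        intro y hy
        have h1 : (m, y) ∈ T := (hT _).2 ⟨hcm, hy⟩
        refine ⟨e ⟨(m, y), h1⟩, 0, ?_, ?_⟩
        · rw [Equiv.symm_apply_apply]
          simp [dg]
        · rw [Equiv.symm_apply_apply, W_zero, mul_one]

/-! ### the order on the monomials -/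

variable {q : ℕ}

/-- the degree -/
def deg (d : Fin g → ℕ) (nn : Fin q → ℕ) (t : Fin q × (Fin g → ℕ)) : ℕ := nn t.1 + dg d t.2

/-- the key of a monomial: degree, then lexicographic order -/
def key (d : Fin g → ℕ) (nn : Fin q → ℕ) (t : Fin q × (Fin g → ℕ)) :
    ℕ ×ₗ (Lex (Fin g → ℕ) ×ₗ Fin q) := toLex (deg d nn t, toLex (toLex t.2, t.1))

/-- multiplication by a variable -/
def sh (j : Fin g) (t : Fin q × (Fin g → ℕ)) : Fin q × (Fin g → ℕ) := (t.1, t.2 + Pi.single j 1)

theorem deg_sh (nn : Fin q → ℕ) (j : Fin g) (t : Fin q × (Fin g → ℕ)) :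
    deg d nn (sh j t) = deg d nn t + (d j + 1) := by
  simp only [deg, sh, dg_single]; ring

theorem key_lt_iff (nn : Fin q → ℕ) (t t' : Fin q × (Fin g → ℕ)) :
    key d nn t < key d nn t' ↔ deg d nn t < deg d nn t' ∨ (deg d nn t = deg d nn t' ∧
      (toLex t.2 < toLex t'.2 ∨ (toLex t.2 = toLex t'.2 ∧ t.1 < t'.1))) := by
  unfold key
  rw [Prod.Lex.toLex_lt_toLex, Prod.Lex.toLex_lt_toLex]

theorem key_sh (nn : Fin q → ℕ) (j : Fin g) {t t' : Fin q × (Fin g → ℕ)}
    (hlt : key d nn t < key d nn t') : key d nn (sh j t) < key d nn (sh j t') := by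
  rw [key_lt_iff] at hlt ⊢
  rw [deg_sh, deg_sh]
  rcases hlt with h1 | ⟨h1, h2 | ⟨h2, h3⟩⟩
  · left; omega
  · right
    refine ⟨by omega, Or.inl ?_⟩
    exact add_lt_add_left h2 (toLex (Pi.single j 1 : Fin g → ℕ))
  · right
    refine ⟨by omega, Or.inr ⟨?_, h3⟩⟩
    have : t.2 = t'.2 := by simpa using h2
    simp only [sh, this]

theorem deg_le_of_key_lt (nn : Fin q → ℕ) {t t' : Fin q × (Fin g → ℕ)}
    (hlt : key d nn t < key d nn t') : deg d nn t ≤ deg d nn t' := by
  rw [key_lt_iff] at hlt
  omega

theorem key_inj (nn : Fin q → ℕ) : Function.Injective (key d nn) := by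
  rintro ⟨i, J⟩ ⟨i', J'⟩ h
  simp only [key, EmbeddingLike.apply_eq_iff_eq, Prod.mk.injEq] at h
  obtain ⟨_, h1, h2⟩ := h
  rw [h1, h2]

section

variable {K : Type} [Field K] [Algebra κ K] [Module K D] [IsScalarTower K D D]
  [IsScalarTower κ K D]

/-- the vectors -/
def ev (z : D) (v : Fin q → D) (u : Fin g → D) (t : Fin q × (Fin g → ℕ)) : D :=
  z * (v t.1 * W u t.2)

/-- the standard monomials -/
def Std (K : Type) [Field K] [Module K D] (z : D) (v : Fin q → D) (u : Fin g → D)
    (d : Fin g → ℕ) (nn : Fin q → ℕ) : Set (Fin q × (Fin g → ℕ)) :=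
  {t | ev z v u t ∉ Submodule.span K (ev z v u '' {t' | key d nn t' < key d nn t})}

variable {v : Fin q → D} {nn : Fin q → ℕ}

theorem Xs_eq (h : Cor p G g u d c E) (hv : ∀ i, nn i ≤ c ∧ v i ∈ G (nn i))
    (hgen : ∀ m, ∀ x ∈ G m, x ∈ Submodule.span κ
      {x | ∃ (i : Fin q) (J : Fin g → ℕ), nn i + dg d J ≤ m ∧ x = v i * W u J}) (z : D) (m : ℕ) :
    Xs K G z m = Submodule.span K (ev z v u '' {t | deg d nn t ≤ m}) := by
  apply le_antisymm
  · refine Submodule.span_le.2 ?_
    rintro _ ⟨x, hx, rfl⟩
    change z * x ∈ _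
    refine Submodule.span_induction (p := fun x _ => z * x ∈ Submodule.span K
      (ev z v u '' {t | deg d nn t ≤ m})) ?_ ?_ ?_ ?_ (hgen m x hx)
    · rintro _ ⟨i, J, hiJ, rfl⟩
      exact Submodule.subset_span ⟨(i, J), hiJ, rfl⟩
    · rw [mul_zero]; exact Submodule.zero_mem _
    · intro a b _ _ ha hb
      rw [mul_add]; exact Submodule.add_mem _ ha hb
    · intro t a _ ha
      rw [mul_smul_comm, ← algebraMap_smul K]
      exact Submodule.smul_mem _ _ ha
  · refine Submodule.span_le.2 ?_
    rintro _ ⟨⟨i, J⟩, hiJ, rfl⟩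
    exact mem_Xs (h.mono hiJ (h.mul _ _ _ _ (hv i).2 (W_mem h J)))

/-- multiplication of a vector by a variable -/
theorem ev_mul (h : Cor p G g u d c E) (hv : ∀ i, nn i ≤ c ∧ v i ∈ G (nn i))
    (hgen : ∀ m, ∀ x ∈ G m, x ∈ Submodule.span κ
      {x | ∃ (i : Fin q) (J : Fin g → ℕ), nn i + dg d J ≤ m ∧ x = v i * W u J}) (z : D)
    (t : Fin q × (Fin g → ℕ)) (j : Fin g) :
    ev z v u t * u j - ev z v u (sh j t) ∈
      Submodule.span K (ev z v u '' {t' | deg d nn t' ≤ deg d nn t + d j}) := by
  rw [← Xs_eq (K := K) h hv hgen]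
  have h1 : ev z v u t * u j - ev z v u (sh j t) =
      z * (v t.1 * (W u t.2 * u j - W u (t.2 + Pi.single j 1))) := by
    simp only [ev, sh, mul_sub, mul_assoc]
  rw [h1]
  refine mem_Xs (h.mono ?_ (h.mul _ _ _ _ (hv t.1).2 (W_mul h t.2 j)))
  unfold deg
  omega

theorem std_sh (h : Cor p G g u d c E) (hv : ∀ i, nn i ≤ c ∧ v i ∈ G (nn i))
    (hgen : ∀ m, ∀ x ∈ G m, x ∈ Submodule.span κ
      {x | ∃ (i : Fin q) (J : Fin g → ℕ), nn i + dg d J ≤ m ∧ x = v i * W u J}) (z : D)
    (t : Fin q × (Fin g → ℕ)) (j : Fin g) (ht : sh j t ∈ Std K z v u d nn) :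
    t ∈ Std K z v u d nn := by
  by_contra hcon
  apply ht
  have hcon' : ev z v u t ∈ Submodule.span K (ev z v u '' {t' | key d nn t' < key d nn t}) := by
    by_contra h'
    exact hcon h'
  -- lower degree terms are smaller
  have hlow : ∀ t'' : Fin q × (Fin g → ℕ), deg d nn t'' ≤ deg d nn t →
      Submodule.span K (ev z v u '' {t' | deg d nn t' ≤ deg d nn t'' + d j}) ≤
        Submodule.span K (ev z v u '' {t' | key d nn t' < key d nn (sh j t)}) := by
    intro t'' ht''
    apply Submodule.span_mono
    apply Set.image_mono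
    intro t' ht'
    change deg d nn t' ≤ _ at ht'
    change key d nn t' < _
    rw [key_lt_iff, deg_sh]
    left; omega
  have h1 : ev z v u t * u j ∈
      Submodule.span K (ev z v u '' {t' | key d nn t' < key d nn (sh j t)}) := by
    refine Submodule.span_induction (p := fun y _ => y * u j ∈ Submodule.span K
      (ev z v u '' {t' | key d nn t' < key d nn (sh j t)})) ?_ ?_ ?_ ?_ hcon'
    · rintro _ ⟨t', ht', rfl⟩
      have h2 : ev z v u t' * u j = ev z v u (sh j t') +
          (ev z v u t' * u j - ev z v u (sh j t')) := by abel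
      rw [h2]
      exact Submodule.add_mem _ (Submodule.subset_span ⟨_, key_sh nn j ht', rfl⟩)
        (hlow t' (deg_le_of_key_lt nn ht') (ev_mul h hv hgen z t' j))
    · rw [zero_mul]; exact Submodule.zero_mem _
    · intro a b _ _ ha hb
      rw [add_mul]; exact Submodule.add_mem _ ha hb
    · intro r a _ ha
      rw [smul_mul_assoc]; exact Submodule.smul_mem _ _ ha
  have h3 := hlow t le_rfl (ev_mul (K := K) h hv hgen z t j)
  have h4 := Submodule.sub_mem _ h1 h3
  rwa [sub_sub_cancel] at h4

theorem std_le (h : Cor p G g u d c E) (hv : ∀ i, nn i ≤ c ∧ v i ∈ G (nn i))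
    (hgen : ∀ m, ∀ x ∈ G m, x ∈ Submodule.span κ
      {x | ∃ (i : Fin q) (J : Fin g → ℕ), nn i + dg d J ≤ m ∧ x = v i * W u J}) (z : D)
    (i : Fin q) (n : ℕ) : ∀ J J' : Fin g → ℕ, J ≤ J' → ∑ j, (J' j - J j) ≤ n →
    (i, J') ∈ Std K z v u d nn → (i, J) ∈ Std K z v u d nn := by
  induction n with
  | zero =>
    intro J J' hJJ hsum hJ'
    have : J = J' := by
      funext j
      have h1 : J' j - J j ≤ ∑ j, (J' j - J j) :=
        Finset.single_le_sum (f := fun j => J' j - J j) (fun _ _ => Nat.zero_le _)
          (Finset.mem_univ j)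
      have h2 : J j ≤ J' j := hJJ j
      omega
    rwa [this]
  | succ n ih =>
    intro J J' hJJ hsum hJ'
    by_cases hEq : J = J'
    · rwa [hEq]
    obtain ⟨j, hj⟩ : ∃ j, J j < J' j := by
      by_contra hno
      push Not at hno
      exact hEq (le_antisymm hJJ hno)
    -- J'' = J' minus one at j
    let J'' : Fin g → ℕ := fun i => if i = j then J' i - 1 else J' i
    have hJ2 : J'' + Pi.single j 1 = J' := by
      funext i
      by_cases hij : i = j
      · subst hij
        simp only [J'', Pi.add_apply, if_true, Pi.single_eq_same]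
        omega
      · simp only [J'', Pi.add_apply, if_neg hij, Pi.single_eq_of_ne hij, add_zero]
    have h1 : (i, J'') ∈ Std K z v u d nn := by
      apply std_sh h hv hgen z (i, J'') j
      change (i, J'' + Pi.single j 1) ∈ _
      rwa [hJ2]
    refine ih J J'' ?_ ?_ h1
    · intro i
      by_cases hij : i = j
      · subst hij
        simp only [J'', if_true]
        omega
      · simp only [J'', if_neg hij]
        exact hJJ i
    · have h2 : ∑ i, (J'' i - J i) < ∑ i, (J' i - J i) := by
        apply Finset.sum_lt_sum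
        · intro i _
          by_cases hij : i = j
          · subst hij
            simp only [J'', if_true]
            omega
          · simp only [J'', if_neg hij]; exact le_rfl
        · refine ⟨j, Finset.mem_univ j, ?_⟩
          simp only [J'', if_true]
          omega
      omega

theorem std_indep (z : D) : LinearIndependent K (fun t : Std K z v u d nn => ev z v u t.1) := by
  classical
  rw [linearIndependent_iff']
  intro s f hf
  by_contra hne
  push Not at hne
  obtain ⟨t0, ht0, hft0⟩ := hne
  have hnem : (s.filter fun t => f t ≠ 0).Nonempty := ⟨t0, Finset.mem_filter.2 ⟨ht0, hft0⟩⟩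
  obtain ⟨t, ht, hmax⟩ := Finset.exists_max_image _ (fun t : Std K z v u d nn => key d nn t.1) hnem
  obtain ⟨hts, hft⟩ := Finset.mem_filter.1 ht
  apply t.2
  have h1 : ∑ t' ∈ s.erase t, f t' • ev z v u t'.1 = -(f t • ev z v u t.1) := by
    rw [eq_neg_iff_add_eq_zero, Finset.sum_erase_add _ _ hts]
    exact hf
  have h2 : ∑ t' ∈ s.erase t, f t' • ev z v u t'.1 ∈
      Submodule.span K (ev z v u '' {t' | key d nn t' < key d nn t.1}) := by
    refine Submodule.sum_mem _ fun t' ht' => ?_
    obtain ⟨hne', hs'⟩ := Finset.mem_erase.1 ht'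
    by_cases hft' : f t' = 0
    · rw [hft', zero_smul]; exact Submodule.zero_mem _
    · apply Submodule.smul_mem
      apply Submodule.subset_span
      refine ⟨t'.1, ?_, rfl⟩
      have h3 := hmax t' (Finset.mem_filter.2 ⟨hs', hft'⟩)
      refine lt_of_le_of_ne h3 fun h4 => hne' ?_
      exact Subtype.ext (key_inj nn h4)
  rw [h1] at h2
  have h5 := Submodule.smul_mem _ (-(f t)⁻¹) h2
  rw [smul_neg, neg_smul, neg_neg, smul_smul, inv_mul_cancel₀ hft, one_smul] at h5
  exact h5

theorem mem_span_std (z : D) (t : Fin q × (Fin g → ℕ)) : ev z v u t ∈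
    Submodule.span K (ev z v u '' {t' | t' ∈ Std K z v u d nn ∧ key d nn t' ≤ key d nn t}) := by
  have hwf : WellFounded (fun a b : Fin q × (Fin g → ℕ) => key d nn a < key d nn b) :=
    InvImage.wf (key d nn) wellFounded_lt
  induction t using hwf.induction with
  | _ t ih =>
    by_cases ht : t ∈ Std K z v u d nn
    · exact Submodule.subset_span ⟨t, ⟨ht, le_rfl⟩, rfl⟩
    · have ht' : ev z v u t ∈
          Submodule.span K (ev z v u '' {t' | key d nn t' < key d nn t}) := by
        by_contra h'
        exact ht h'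
      refine (Submodule.span_le.2 ?_) ht'
      rintro _ ⟨t', hlt, rfl⟩
      refine (Submodule.span_mono (Set.image_mono ?_)) (ih t' hlt)
      rintro t'' ⟨h1, h2⟩
      exact ⟨h1, h2.trans (le_of_lt hlt)⟩

theorem Xs_std (h : Cor p G g u d c E) (hv : ∀ i, nn i ≤ c ∧ v i ∈ G (nn i))
    (hgen : ∀ m, ∀ x ∈ G m, x ∈ Submodule.span κ
      {x | ∃ (i : Fin q) (J : Fin g → ℕ), nn i + dg d J ≤ m ∧ x = v i * W u J}) (z : D) (m : ℕ) :
    Xs K G z m ≤
      Submodule.span K (ev z v u '' {t | t ∈ Std K z v u d nn ∧ deg d nn t ≤ m}) := by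
  rw [Xs_eq h hv hgen]
  refine Submodule.span_le.2 ?_
  rintro _ ⟨t, ht, rfl⟩
  refine (Submodule.span_mono (Set.image_mono ?_)) (mem_span_std (K := K) (d := d) (nn := nn) z t)
  rintro t' ⟨h1, h2⟩
  refine ⟨h1, ?_⟩
  rcases h2.lt_or_eq with h3 | h3
  · exact (deg_le_of_key_lt nn h3).trans ht
  · rw [key_inj nn h3]; exact ht

end

end Gp

open Gp in
/-- M1 -/
theorem gap {κ D : Type} [Field κ] [DivisionRing D] [Algebra κ D]
    {p : ℕ} {G : ℕ → Submodule κ D} {g : ℕ} {u : Fin g → D} {d : Fin g → ℕ} {c E : ℕ}
    (h : Cor p G g u d c E) (K : Type) [Field K] [Algebra κ K] [Module K D]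
    [IsScalarTower K D D] [IsScalarTower κ K D] (δ : ℕ) (z : D) :
    (∀ N, (N + 1) ^ (δ + 1) ≤ finrank K (Xs K G z ((c + ∑ j, (d j + 1)) * (N + 1)))) ∨
      ∃ C, ∀ N, finrank K (Xs K G z N) ≤ C * (N + 1) ^ δ := by
  classical
  obtain ⟨q, v, nn, hv, hgen⟩ := gens h
  by_cases hcase : ∃ (i : Fin q) (U : Finset (Fin g)), U.card = δ + 1 ∧
      ∀ J : Fin g → ℕ, (∀ j, j ∉ U → J j = 0) → (i, J) ∈ Std K z v u d nn
  · left
    obtain ⟨i, U, hU, hall⟩ := hcase
    intro N
    set X := Xs K G z ((c + ∑ j, (d j + 1)) * (N + 1)) with hX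
    have hXf : FiniteDimensional K X := (Xs_fin h z _).1
    let φ : (U → Fin (N + 1)) → (Fin g → ℕ) := fun f j => if hj : j ∈ U then f ⟨j, hj⟩ else 0
    have hφ0 : ∀ f j, j ∉ U → φ f j = 0 := by
      intro f j hj
      simp only [φ, dif_neg hj]
    have hφi : Function.Injective φ := by
      intro f f' hff
      funext ⟨j, hj⟩
      have h1 := congrFun hff j
      simp only [φ, dif_pos hj] at h1
      exact Fin.ext h1
    have hφN : ∀ f j, φ f j ≤ N := by
      intro f j
      by_cases hj : j ∈ U
      · simp only [φ, dif_pos hj]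
        have := (f ⟨j, hj⟩).2
        omega
      · rw [hφ0 f j hj]; exact Nat.zero_le _
    have hmem : ∀ f, ev z v u (i, φ f) ∈ X := by
      intro f
      rw [hX, Xs_eq h hv hgen]
      refine Submodule.subset_span ⟨(i, φ f), ?_, rfl⟩
      change nn i + dg d (φ f) ≤ _
      have h1 : dg d (φ f) ≤ ∑ j, N * (d j + 1) :=
        Finset.sum_le_sum fun j _ => Nat.mul_le_mul_right _ (hφN f j)
      rw [← Finset.mul_sum] at h1
      have h2 := (hv i).1
      have h3 : (c + ∑ j, (d j + 1)) * (N + 1) =
          c + N * ∑ j, (d j + 1) + (c * N + ∑ j, (d j + 1)) := by ring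
      rw [h3]
      exact (Nat.add_le_add h2 h1).trans (Nat.le_add_right _ _)
    have hli : LinearIndependent K (fun f => (⟨ev z v u (i, φ f), hmem f⟩ : X)) := by
      apply LinearIndependent.of_comp X.subtype
      have h1 := std_indep (K := K) (v := v) (u := u) (d := d) (nn := nn) z
      have h2 := h1.comp (fun f : U → Fin (N + 1) => (⟨(i, φ f), hall _ (hφ0 f)⟩ :
        Std K z v u d nn)) (by
          intro f f' hff
          apply hφi
          have := congrArg Subtype.val hff
          exact (Prod.mk.inj this).2)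
      exact h2
    have h3 := hli.fintype_card_le_finrank
    rw [Fintype.card_fun, Fintype.card_fin, Fintype.card_coe, hU] at h3
    exact h3
  · right
    push Not at hcase
    choose mm hm0 hmS using hcase
    -- the bound M for all entries
    let M : ℕ := 1 + ∑ i : Fin q, ∑ U : Finset (Fin g), ∑ j : Fin g,
      if hU : U.card = δ + 1 then mm i U hU j else 0
    have hM : ∀ i U (hU : U.card = δ + 1) j, mm i U hU j ≤ M := by
      intro i U hU j
      have h1 : mm i U hU j ≤ ∑ j : Fin g, (if hU : U.card = δ + 1 then mm i U hU j else 0) := by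
        have h2 := Finset.single_le_sum (f := fun j : Fin g =>
          (if hU : U.card = δ + 1 then mm i U hU j else 0)) (fun _ _ => Nat.zero_le _)
          (Finset.mem_univ j)
        simpa only [dif_pos hU] using h2
      have h2 := Finset.single_le_sum (f := fun U : Finset (Fin g) => ∑ j : Fin g,
          (if hU : U.card = δ + 1 then mm i U hU j else 0)) (fun _ _ => Nat.zero_le _)
          (Finset.mem_univ U)
      have h3 := Finset.single_le_sum (f := fun i : Fin q => ∑ U : Finset (Fin g), ∑ j : Fin g,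
          (if hU : U.card = δ + 1 then mm i U hU j else 0)) (fun _ _ => Nat.zero_le _)
          (Finset.mem_univ i)
      have h4 := (h1.trans h2).trans h3
      exact h4.trans (Nat.le_add_left _ _)
    have hcard : ∀ t ∈ Std K z v u d nn, ((Finset.univ : Finset (Fin g)).filter
        fun j => M ≤ t.2 j).card ≤ δ := by
      rintro ⟨i, J⟩ ht
      by_contra hgt
      push Not at hgt
      obtain ⟨U, hUs, hUc⟩ := Finset.exists_subset_card_eq (show δ + 1 ≤ _ from hgt)
      have h1 : mm i U hUc ≤ J := by
        intro j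
        by_cases hj : j ∈ U
        · have := (Finset.mem_filter.1 (hUs hj)).2
          exact (hM i U hUc j).trans this
        · rw [hm0 i U hUc j hj]; exact Nat.zero_le _
      exact hmS i U hUc (std_le h hv hgen z i _ _ _ h1 le_rfl ht)
    refine ⟨q * (2 ^ g * M ^ g), fun m => ?_⟩
    let B : Finset (Fin q × (Fin g → ℕ)) := (Finset.univ : Finset (Fin q)) ×ˢ
      ((Finset.univ : Finset (Finset (Fin g))).filter fun V => V.card ≤ δ).biUnion fun V =>
        Fintype.piFinset fun j => if j ∈ V then range (m + 1) else range M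
    have hB : {t | t ∈ Std K z v u d nn ∧ deg d nn t ≤ m} ⊆ (B : Set _) := by
      rintro ⟨i, J⟩ ⟨ht, hdeg⟩
      simp only [B, Finset.coe_product, Set.mem_prod, Finset.mem_coe, Finset.mem_univ, true_and,
        Finset.mem_biUnion, Finset.mem_filter, Fintype.mem_piFinset]
      refine ⟨(Finset.univ : Finset (Fin g)).filter fun j => M ≤ J j, hcard _ ht, fun j => ?_⟩
      by_cases hj : M ≤ J j
      · rw [if_pos (by simpa using hj), Finset.mem_range]
        have h1 : J j * (d j + 1) ≤ dg d J :=
          Finset.single_le_sum (f := fun j => J j * (d j + 1)) (fun _ _ => Nat.zero_le _)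
            (Finset.mem_univ j)
        have h2 : J j ≤ J j * (d j + 1) := Nat.le_mul_of_pos_right _ (Nat.succ_pos _)
        change nn i + dg d J ≤ m at hdeg
        omega
      · rw [if_neg (by simpa using hj), Finset.mem_range]
        omega
    have hBc : B.card ≤ q * (2 ^ g * M ^ g) * (m + 1) ^ δ := by
      have hM1 : 1 ≤ M := by simp only [M]; omega
      have h1 : ∀ V ∈ ((Finset.univ : Finset (Finset (Fin g))).filter fun V => V.card ≤ δ),
          (Fintype.piFinset fun j : Fin g => if j ∈ V then range (m + 1) else range M).card ≤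
            M ^ g * (m + 1) ^ δ := by
        intro V hV
        have hV' := (Finset.mem_filter.1 hV).2
        rw [Fintype.card_piFinset]
        have h2 : ∏ j : Fin g, (if j ∈ V then range (m + 1) else range M).card ≤
            ∏ j : Fin g, (M * if j ∈ V then m + 1 else 1) := by
          refine Finset.prod_le_prod (fun _ _ => Nat.zero_le _) fun j _ => ?_
          by_cases hj : j ∈ V
          · rw [if_pos hj, if_pos hj, Finset.card_range]
            exact Nat.le_mul_of_pos_left _ hM1
          · rw [if_neg hj, if_neg hj, Finset.card_range, mul_one]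
        refine h2.trans ?_
        rw [Finset.prod_mul_distrib, Finset.prod_const, Finset.card_univ, Fintype.card_fin,
          Finset.prod_ite, Finset.prod_const, Finset.prod_const_one, mul_one]
        apply Nat.mul_le_mul_left
        apply Nat.pow_le_pow_right (Nat.succ_pos m)
        have : (Finset.univ : Finset (Fin g)).filter (fun j => j ∈ V) = V := by
          ext; simp
        rw [this]
        exact hV'
      rw [Finset.card_product, Finset.card_univ, Fintype.card_fin]
      have h3 : (((Finset.univ : Finset (Finset (Fin g))).filter fun V => V.card ≤ δ).biUnion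
          fun V => Fintype.piFinset fun j => if j ∈ V then range (m + 1) else range M).card ≤
          2 ^ g * (M ^ g * (m + 1) ^ δ) := by
        refine (Finset.card_biUnion_le_card_mul _ _ _ h1).trans ?_
        apply Nat.mul_le_mul_right
        refine (Finset.card_filter_le _ _).trans ?_
        rw [Finset.card_univ, Fintype.card_finset, Fintype.card_fin]
      calc q * _ ≤ q * (2 ^ g * (M ^ g * (m + 1) ^ δ)) := Nat.mul_le_mul_left _ h3
        _ = q * (2 ^ g * M ^ g) * (m + 1) ^ δ := by ring
    have hfin : FiniteDimensional K (Submodule.span K ((B.image (ev z v u) : Finset D) : Set D)) :=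
      FiniteDimensional.span_finset K _
    have hle : Xs K G z m ≤ Submodule.span K ((B.image (ev z v u) : Finset D) : Set D) := by
      refine (Xs_std h hv hgen z m).trans (Submodule.span_mono ?_)
      rw [Finset.coe_image]
      exact Set.image_mono hB
    calc finrank K (Xs K G z m) ≤
        finrank K (Submodule.span K ((B.image (ev z v u) : Finset D) : Set D)) :=
          Submodule.finrank_mono hle
      _ ≤ (B.image (ev z v u)).card := finrank_span_finset_le_card _
      _ ≤ B.card := Finset.card_image_le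
      _ ≤ _ := hBc

end DL73
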