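import Pool.Agent.DL73.Base

/-!
# The layer inequality
-/

set_option autoImplicit false

namespace DL73

open Finset Module BI29

variable {κ D : Type} [Field κ] [DivisionRing D] [Algebra κ D]
variable {p : ℕ} {G : ℕ → Submodule κ D} {g : ℕ} {u : Fin g → D} {d : Fin g → ℕ} {c E : ℕ}

section

variable {K K' : Type} [Field K] [Field K'] [Algebra κ K] [Algebra κ K'] [Algebra K K']
  [IsScalarTower κ K K'] [Module K D] [Module K' D] [IsScalarTower K D D] [IsScalarTower K' D D]
  [IsScalarTower κ K D] [IsScalarTower κ K' D] [IsScalarTower K K' D]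

/-- multiplication by an element of the large field, linear over the small field -/
def Lm (K : Type) {K' D : Type} [Field K] [Field K'] [DivisionRing D] [Algebra K K'] [Module K D]
    [Module K' D] [IsScalarTower K K' D] (x : K') : D →ₗ[K] D where
  toFun y := x • y
  map_add' := smul_add x
  map_smul' a y := by
    rw [RingHom.id_apply, ← algebraMap_smul K' a y, smul_smul, mul_comm, mul_smul,
      algebraMap_smul]

theorem Lm_apply (x : K') (y : D) : Lm K x y = x • y := rfl

theorem finrank_map_Lm {x : K'} (hx : x ≠ 0) (S : Submodule K D) [FiniteDimensional K S] :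
    finrank K (S.map (Lm K x)) = finrank K S := by
  have hinj : Function.Injective (Lm K x : D →ₗ[K] D) := by
    intro a b hab
    exact smul_right_injective D hx hab
  exact (LinearEquiv.finrank_eq (Submodule.equivMapOfInjective _ hinj S)).symm

/-- the spaces of the layers -/
def Vl (K : Type) {K' D κ : Type} [Field κ] [Field K] [Field K'] [DivisionRing D] [Algebra κ D]
    [Algebra K K'] [Module K D] [Module K' D] [IsScalarTower K K' D] (G : ℕ → Submodule κ D)
    (χ : K') (z : D) (n w B : ℕ) : ℕ → Submodule K D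
  | 0 => Xs K G z (n + w * (B + 1))
  | m + 1 => Vl K G χ z n w B m ⊔ (Xs K G z (n + w * (B - m))).map (Lm K (χ ^ (m + 1)))

theorem Vl_mem (h : Cor p G g u d c E) (χ : K') (z : D) (n w B m : ℕ) :
    (Xs K G z (n + w * (B + 1 - m))).map (Lm K (χ ^ m)) ≤ Vl K G χ z n w B m := by
  rcases m with _ | m
  · rintro _ ⟨y, hy, rfl⟩
    rw [Lm_apply, pow_zero, one_smul]
    exact hy
  · have e : B + 1 - (m + 1) = B - m := by omega
    rw [e]
    exact le_sup_right

theorem Vl_mono (χ : K') (z : D) (n w B : ℕ) : Monotone (Vl K G χ z n w B) :=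
  monotone_nat_of_le_succ fun _ => le_sup_left

theorem Vl_fin (h : Cor p G g u d c E) (χ : K') (z : D) (n w B m : ℕ) :
    FiniteDimensional K (Vl K G χ z n w B m) := by
  induction m with
  | zero => exact (Xs_fin h z _).1
  | succ m ih =>
    have := ih
    have := (Xs_fin (K := K) h z (n + w * (B - m))).1
    rw [Vl]
    infer_instance

theorem Vl_step (h : Cor p G g u d c E) {χ : K'} (hχ : χ ≠ 0) {z s t : D} {w : ℕ} (hs : s ∈ G w)
    (ht : t ∈ G w) (hst : χ • (z * s) = z * t) (n B m : ℕ) (hm : m < B) :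
    finrank K (Vl K G χ z n w B (m + 1)) + finrank K (Xs K G (z * s) (n + w * (B - m - 1))) ≤
      finrank K (Vl K G χ z n w B m) + finrank K (Xs K G z (n + w * (B - m))) := by
  have hf1 := Vl_fin (K := K) h χ z n w B m
  have hf2 := (Xs_fin (K := K) h z (n + w * (B - m))).1
  have hf3 := (Xs_fin (K := K) h (z * s) (n + w * (B - m - 1))).1
  have hpow : χ ^ (m + 1) ≠ 0 := pow_ne_zero _ hχ
  set Y := (Xs K G z (n + w * (B - m))).map (Lm K (χ ^ (m + 1))) with hY
  set Y' := (Xs K G (z * s) (n + w * (B - m - 1))).map (Lm K (χ ^ (m + 1))) with hY'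
  have e1 : finrank K Y = finrank K (Xs K G z (n + w * (B - m))) := finrank_map_Lm hpow _
  have e2 : finrank K Y' = finrank K (Xs K G (z * s) (n + w * (B - m - 1))) :=
    finrank_map_Lm hpow _
  have hn : n + w * (B - m - 1) + w = n + w * (B - m) := by
    obtain ⟨k, hk⟩ : ∃ k, B - m = k + 1 := ⟨B - m - 1, by omega⟩
    rw [hk, Nat.add_sub_cancel]
    ring
  have hle1 : Y' ≤ Y := by
    refine Submodule.map_mono ?_
    have := Xs_mul_left (K := K) (z := z) (n := n + w * (B - m - 1)) h hs
    rwa [hn] at this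
  have hle2 : Y' ≤ Vl K G χ z n w B m := by
    rw [hY', Submodule.map_le_iff_le_comap]
    refine Submodule.span_le.2 ?_
    rintro _ ⟨x, hx, rfl⟩
    change χ ^ (m + 1) • (z * s * x) ∈ Vl K G χ z n w B m
    have e3 : χ ^ (m + 1) • (z * s * x) = χ ^ m • (z * (t * x)) := by
      rw [pow_succ, mul_smul, ← smul_mul_assoc, hst, mul_assoc]
    rw [e3]
    refine Vl_mem h χ z n w B m ⟨z * (t * x), ?_, rfl⟩
    refine Xs_mono h z ?_ (mem_Xs (h.mul _ _ _ _ ht hx))
    have : w * (B - m) ≤ w * (B + 1 - m) := Nat.mul_le_mul_left _ (by omega)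
    omega
  have hfY : FiniteDimensional K Y := by
    rw [hY]
    infer_instance
  have h1 := Submodule.finrank_sup_add_finrank_inf_eq (Vl K G χ z n w B m) Y
  have h2 : finrank K Y' ≤ finrank K ↥(Vl K G χ z n w B m ⊓ Y) :=
    Submodule.finrank_mono (le_inf hle2 hle1)
  change finrank K ↥(Vl K G χ z n w B m ⊔ Y) + _ ≤ _
  omega

theorem Vl_sum (h : Cor p G g u d c E) {χ : K'} (hχ : χ ≠ 0) {z s t : D} {w : ℕ} (hs : s ∈ G w)
    (ht : t ∈ G w) (hst : χ • (z * s) = z * t) (n B : ℕ) :
    ∀ m ≤ B, finrank K (Vl K G χ z n w B m) +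
        ∑ i ∈ range m, finrank K (Xs K G (z * s) (n + w * (B - i - 1))) ≤
      finrank K (Xs K G z (n + w * (B + 1))) + ∑ i ∈ range m, finrank K (Xs K G z (n + w * (B - i)))
      := by
  intro m
  induction m with
  | zero =>
    intro _
    rw [range_zero, sum_empty, sum_empty]
    exact le_rfl
  | succ m ih =>
    intro hm
    have h1 := ih (by omega)
    have h2 := Vl_step (K := K) h hχ hs ht hst n B m (by omega)
    rw [sum_range_succ, sum_range_succ]
    omega

theorem Vl_lower (h : Cor p G g u d c E) {χ : K'}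
    (hχ : LinearIndependent K (fun n : ℕ => χ ^ n)) (z : D) (n w B : ℕ) :
    (B + 1) * finrank K' (Xs K' G z n) ≤ finrank K (Vl K G χ z n w B B) := by
  classical
  have hfV := Vl_fin (K := K) h χ z n w B B
  have hfX := (Xs_fin (K := K') h z n).1
  obtain ⟨b, hbs, hspan, hli⟩ := exists_linearIndependent K' ((fun x => z * x) '' (G n : Set D))
  have hbfin : Finite b := by
    have hmem : ∀ y : b, (y : D) ∈ Xs K' G z n := fun y => Submodule.subset_span (hbs y.2)
    have h1 : LinearIndependent K' (fun y : b => (⟨y, hmem y⟩ : Xs K' G z n)) :=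
      LinearIndependent.of_comp (Xs K' G z n).subtype hli
    exact h1.finite_of_isNoetherian
  have := Fintype.ofFinite b
  have hcard : finrank K' (Xs K' G z n) = Fintype.card b := by
    rw [Xs, ← hspan, finrank_span_set_eq_card hli, Set.toFinset_card]
  have h1 : LinearIndependent K (fun i : Fin (B + 1) => χ ^ (i : ℕ)) :=
    hχ.comp (fun i : Fin (B + 1) => (i : ℕ)) Fin.val_injective
  have h2 : LinearIndependent K (fun q : Fin (B + 1) × b => χ ^ (q.1 : ℕ) • (q.2 : D)) :=
    linearIndependent_smul h1 hli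
  have hmem : ∀ q : Fin (B + 1) × b, χ ^ (q.1 : ℕ) • (q.2 : D) ∈ Vl K G χ z n w B B := by
    rintro ⟨i, y⟩
    refine Vl_mono χ z n w B (by omega : (i : ℕ) ≤ B) (Vl_mem h χ z n w B i ⟨y, ?_, rfl⟩)
    obtain ⟨x, hx, hxy⟩ := hbs y.2
    rw [← hxy]
    exact mem_Xs (h.mono (Nat.le_add_right _ _) hx)
  have h3 : LinearIndependent K (fun q : Fin (B + 1) × b =>
      (⟨χ ^ (q.1 : ℕ) • (q.2 : D), hmem q⟩ : Vl K G χ z n w B B)) :=
    LinearIndependent.of_comp (Vl K G χ z n w B B).subtype h2
  have h4 := h3.fintype_card_le_finrank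
  rw [Fintype.card_prod, Fintype.card_fin, ← hcard] at h4
  exact h4

/-- the layer inequality -/
theorem layer (h : Cor p G g u d c E) {χ : K'}
    (hχ : LinearIndependent K (fun n : ℕ => χ ^ n)) {z s t : D} {w : ℕ} (hs : s ∈ G w)
    (ht : t ∈ G w) (hst : χ • (z * s) = z * t) (n B : ℕ) :
    (B + 1) * finrank K' (Xs K' G z n) +
        ∑ i ∈ range B, finrank K (Xs K G (z * s) (n + w * i)) ≤
      finrank K (Xs K G z (n + w * (B + 1))) +
        ∑ i ∈ range B, finrank K (Xs K G z (n + w * (i + 1))) := by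
  have hχ0 : χ ≠ 0 := by
    have := hχ.ne_zero 1
    simpa using this
  have h1 := Vl_lower (K := K) h hχ z n w B
  have h2 := Vl_sum (K := K) h hχ0 hs ht hst n B B le_rfl
  have e1 : ∑ i ∈ range B, finrank K (Xs K G (z * s) (n + w * (B - i - 1))) =
      ∑ i ∈ range B, finrank K (Xs K G (z * s) (n + w * i)) := by
    rw [← sum_range_reflect]
    refine sum_congr rfl fun i hi => ?_
    rw [mem_range] at hi
    rw [show B - (B - 1 - i) - 1 = i by omega]
  have e2 : ∑ i ∈ range B, finrank K (Xs K G z (n + w * (B - i))) =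
      ∑ i ∈ range B, finrank K (Xs K G z (n + w * (i + 1))) := by
    rw [← sum_range_reflect]
    refine sum_congr rfl fun i hi => ?_
    rw [mem_range] at hi
    rw [show B - (B - 1 - i) = i + 1 by omega]
  rw [e1, e2] at h2
  omega

end

end DL73
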