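import Mathlib

/-!
# Transcendence degree of a commutative algebra inside a division ring, algebraic over the center
-/

set_option autoImplicit false

namespace DL73

theorem trdeg_le_center {k B D : Type} [Field k] [CommRing B] [Algebra k B] [DivisionRing D]
    [Algebra k D] (f : B →ₐ[k] D) (hf : Function.Injective f)
    (halg : ∀ b : B, ∃ P : Polynomial (Subring.center D), P ≠ 0 ∧ Polynomial.aeval (f b) P = 0) :
    Algebra.trdeg k B ≤ Algebra.trdeg k (Subalgebra.center k D) := by
  classical
  set S : Set D := (Subalgebra.center k D : Set D) ∪ Set.range f with hS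
  have hcomm : ∀ a ∈ S, ∀ b ∈ S, a * b = b * a := by
    rintro a (ha | ⟨a, rfl⟩) b hb
    · exact (Subalgebra.mem_center_iff.1 ha b).symm
    · rcases hb with hb | ⟨b, rfl⟩
      · exact Subalgebra.mem_center_iff.1 hb (f a)
      · rw [← map_mul, mul_comm, map_mul]
  let C : Subalgebra k D := Algebra.adjoin k S
  let _ : CommRing C :=
    { C.toRing with
      mul_comm := fun a b => (Algebra.isMulCommutative_adjoin k hcomm).is_comm.comm a b }
  have hZC : Subalgebra.center k D ≤ C := fun x hx => Algebra.subset_adjoin (Or.inl hx)
  have hBC : ∀ b, f b ∈ C := fun b => Algebra.subset_adjoin (Or.inr ⟨b, rfl⟩)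
  let ι : Subalgebra.center k D →ₐ[k] C := Subalgebra.inclusion hZC
  let _ : Algebra (Subalgebra.center k D) C := ι.toRingHom.toAlgebra
  have : IsScalarTower k (Subalgebra.center k D) C :=
    IsScalarTower.of_algebraMap_eq fun r => (ι.commutes r).symm
  let j : C →+* D := C.val.toRingHom
  have hj : Function.Injective j := Subtype.val_injective
  have : NoZeroDivisors C := hj.noZeroDivisors j (map_zero _) (map_mul _)
  have : NoZeroDivisors (Subalgebra.center k D) :=
    Function.Injective.noZeroDivisors (Subalgebra.val _) Subtype.val_injective (map_zero _)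
      (map_mul _)
  have hι : Function.Injective (algebraMap (Subalgebra.center k D) C) :=
    Subalgebra.inclusion_injective hZC
  have : FaithfulSMul (Subalgebra.center k D) C :=
    (faithfulSMul_iff_algebraMap_injective _ _).2 hι
  have : FaithfulSMul k (Subalgebra.center k D) := inferInstance
  -- the ring equivalence between the two centers
  let e : Subring.center D →+* Subalgebra.center k D :=
    { toFun := fun x => ⟨x.1, Subalgebra.mem_center_iff.2 (Subring.mem_center_iff.1 x.2)⟩
      map_one' := rfl
      map_mul' := fun _ _ => rfl
      map_zero' := rfl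
      map_add' := fun _ _ => rfl }
  have he : Function.Injective e := fun x y hxy => Subtype.ext (congrArg Subtype.val hxy)
  have key : ∀ x (hx : x ∈ Algebra.adjoin k S),
      IsAlgebraic (Subalgebra.center k D) (⟨x, hx⟩ : C) := by
    intro x hx
    induction hx using Algebra.adjoin_induction with
    | mem x hx =>
      rcases hx with hx | ⟨b, rfl⟩
      · exact isAlgebraic_algebraMap (A := C) (⟨x, hx⟩ : Subalgebra.center k D)
      · obtain ⟨P, hP0, hP⟩ := halg b
        refine ⟨P.map e, (Polynomial.map_ne_zero_iff he).2 hP0, ?_⟩
        apply hj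
        rw [map_zero, Polynomial.aeval_def, Polynomial.eval₂_map, Polynomial.hom_eval₂]
        rw [Polynomial.aeval_def] at hP
        exact hP
    | algebraMap r =>
      exact isAlgebraic_algebraMap (A := C) (algebraMap k (Subalgebra.center k D) r)
    | add x y hx hy h1 h2 => exact h1.add h2
    | mul x y hx hy h1 h2 => exact h1.mul h2
  have : Algebra.IsAlgebraic (Subalgebra.center k D) C := ⟨fun c => key c.1 c.2⟩
  have h1 : Algebra.trdeg k (Subalgebra.center k D) +
      Algebra.trdeg (Subalgebra.center k D) C = Algebra.trdeg k C :=
    trdeg_add_eq (A := C) k (Subalgebra.center k D)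
  rw [trdeg_eq_zero (R := Subalgebra.center k D) (A := C), add_zero] at h1
  rw [h1]
  let f' : B →ₐ[k] C := f.codRestrict C hBC
  exact trdeg_le_of_injective f' fun a b hab => hf (congrArg Subtype.val hab)

end DL73
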