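import Pool.Agent.DL73.Layer
import Pool.Agent.DL73.Gap

/-!
# The induction step: a transcendental element lowers the growth
-/

set_option autoImplicit false

namespace DL73

open Finset Module BI29

variable {κ D : Type} [Field κ] [DivisionRing D] [Algebra κ D]
variable {p : ℕ} {G : ℕ → Submodule κ D} {g : ℕ} {u : Fin g → D} {d : Fin g → ℕ} {c E : ℕ}

theorem sum_blocks (φ : ℕ → ℕ) (w B : ℕ) :
    ∑ l ∈ range (w * B), φ l = ∑ ρ ∈ range w, ∑ i ∈ range B, φ (ρ + w * i) := by
  rw [sum_comm]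
  induction B with
  | zero => simp
  | succ B ih =>
    rw [Nat.mul_succ, sum_range_add, ih, sum_range_succ]
    congr 1
    exact sum_congr rfl fun ρ _ => by rw [add_comm]

section

variable {K K' : Type} [Field K] [Field K'] [Algebra κ K] [Algebra κ K'] [Algebra K K']
  [IsScalarTower κ K K'] [Module K D] [Module K' D] [IsScalarTower K D D] [IsScalarTower K' D D]
  [IsScalarTower κ K D] [IsScalarTower κ K' D] [IsScalarTower K K' D]

/-- the averaged layer inequality -/
theorem layer_avg (h : Cor p G g u d c E) {χ : K'}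
    (hχ : LinearIndependent K (fun n : ℕ => χ ^ n)) {z s t : D} {w : ℕ} (hs : s ∈ G w)
    (ht : t ∈ G w) (hst : χ • (z * s) = z * t) (n B : ℕ) :
    w * B * finrank K' (Xs K' G z n) +
        ∑ l ∈ range (w * B), finrank K (Xs K G (z * s) (n + l)) ≤
      2 * w * finrank K (Xs K G z (n + w * B + 2 * w)) +
        ∑ l ∈ range (w * B), finrank K (Xs K G z (n + l)) := by
  have hmonoK' : Monotone fun m => finrank K' (Xs K' G z m) := by
    intro a b hab
    have := (Xs_fin (K := K') h z b).1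
    exact Submodule.finrank_mono (Xs_mono h z hab)
  have hmonoK : Monotone fun m => finrank K (Xs K G z m) := by
    intro a b hab
    have := (Xs_fin (K := K) h z b).1
    exact Submodule.finrank_mono (Xs_mono h z hab)
  have h1 := Finset.sum_le_sum fun ρ (_ : ρ ∈ range w) => layer h hχ hs ht hst (n + ρ) B
  rw [sum_add_distrib, sum_add_distrib] at h1
  have e1 : ∑ ρ ∈ range w, ∑ i ∈ range B, finrank K (Xs K G (z * s) (n + ρ + w * i)) =
      ∑ l ∈ range (w * B), finrank K (Xs K G (z * s) (n + l)) := by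
    rw [sum_blocks]
    exact sum_congr rfl fun ρ _ => sum_congr rfl fun i _ => by rw [add_assoc]
  have e2 : ∑ ρ ∈ range w, ∑ i ∈ range B, finrank K (Xs K G z (n + ρ + w * (i + 1))) =
      ∑ l ∈ range (w * B), finrank K (Xs K G z (n + l + w)) := by
    rw [sum_blocks (fun l => finrank K (Xs K G z (n + l + w)))]
    refine sum_congr rfl fun ρ _ => sum_congr rfl fun i _ => ?_
    rw [show n + ρ + w * (i + 1) = n + (ρ + w * i) + w by ring]
  have e3 : ∑ l ∈ range (w * B), finrank K (Xs K G z (n + l + w)) ≤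
      ∑ l ∈ range (w * B), finrank K (Xs K G z (n + l)) +
        w * finrank K (Xs K G z (n + w * B + w)) := by
    have h2 : ∀ w' ≤ w, ∑ l ∈ range (w * B), finrank K (Xs K G z (n + l + w')) ≤
      ∑ l ∈ range (w * B), finrank K (Xs K G z (n + l)) +
        w' * finrank K (Xs K G z (n + w * B + w)) := by
      intro w'
      induction w' with
      | zero => intro _; simp
      | succ w' ih =>
        intro hw'
        have h3 := ih (by omega)
        have h4 := Finset.sum_range_succ' (fun m => finrank K (Xs K G z (n + m + w'))) (w * B)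
        have h5 := Finset.sum_range_succ (fun m => finrank K (Xs K G z (n + m + w'))) (w * B)
        have h6 : ∑ l ∈ range (w * B), finrank K (Xs K G z (n + l + (w' + 1))) =
            ∑ l ∈ range (w * B), finrank K (Xs K G z (n + (l + 1) + w')) :=
          sum_congr rfl fun l _ => by rw [show n + l + (w' + 1) = n + (l + 1) + w' by omega]
        have h7 : finrank K (Xs K G z (n + w * B + w')) ≤ finrank K (Xs K G z (n + w * B + w)) :=
          hmonoK (by omega)
        rw [h6, add_mul, one_mul]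
        have h8 := h4.symm.trans h5
        omega
    exact h2 w le_rfl
  have e4 : w * B * finrank K' (Xs K' G z n) ≤
      ∑ ρ ∈ range w, (B + 1) * finrank K' (Xs K' G z (n + ρ)) := by
    calc w * B * finrank K' (Xs K' G z n) = ∑ ρ ∈ range w, B * finrank K' (Xs K' G z n) := by
          rw [sum_const, card_range, smul_eq_mul, mul_assoc]
      _ ≤ _ := sum_le_sum fun ρ _ => Nat.mul_le_mul (Nat.le_succ B) (hmonoK' (by omega))
  have e5 : ∑ ρ ∈ range w, finrank K (Xs K G z (n + ρ + w * (B + 1))) ≤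
      w * finrank K (Xs K G z (n + w * B + 2 * w)) := by
    calc ∑ ρ ∈ range w, finrank K (Xs K G z (n + ρ + w * (B + 1)))
        ≤ ∑ ρ ∈ range w, finrank K (Xs K G z (n + w * B + 2 * w)) := by
          refine sum_le_sum fun ρ hρ => hmonoK ?_
          rw [mem_range] at hρ
          have : w * (B + 1) = w * B + w := by ring
          omega
      _ = _ := by rw [sum_const, card_range, smul_eq_mul]
  have e6 : w * finrank K (Xs K G z (n + w * B + w)) ≤
      w * finrank K (Xs K G z (n + w * B + 2 * w)) := Nat.mul_le_mul_left _ (hmonoK (by omega))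
  have e7 : 2 * w * finrank K (Xs K G z (n + w * B + 2 * w)) =
      w * finrank K (Xs K G z (n + w * B + 2 * w)) +
        w * finrank K (Xs K G z (n + w * B + 2 * w)) := by ring
  rw [e1, e2] at h1
  omega

/-- the step, from the dichotomy -/
theorem step_aux (h : Cor p G g u d c E) {χ : K'}
    (hχ : LinearIndependent K (fun n : ℕ => χ ^ n)) (δ C c0 : ℕ) (z₀ : D) (hz₀ : z₀ ≠ 0)
    (hgr : ∀ N, finrank K (Xs K G z₀ N) ≤ C * (N + 1) ^ (δ + 1))
    (hbig : ∀ z : D, z ≠ 0 → ∀ N, (N + 1) ^ (δ + 1) ≤ finrank K' (Xs K' G z (c0 * (N + 1)))) :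
    False := by
  classical
  -- the next multiplier
  have hnext : ∀ z : {z : D // z ≠ 0}, ∃ (s : {s : D // s ≠ 0}) (t : D) (w : ℕ), 1 ≤ w ∧
      (s : D) ∈ G w ∧ t ∈ G w ∧ χ • ((z : D) * s) = z * t := by
    rintro ⟨z, hz⟩
    obtain ⟨n, a, b, ha, hb, hb0, hab⟩ := h.frac (z⁻¹ * (χ • z))
    refine ⟨⟨b, hb0⟩, a, n + 1, by omega, h.mono (Nat.le_succ n) hb, h.mono (Nat.le_succ n) ha, ?_⟩
    change χ • (z * b) = z * a
    rw [← hab, ← mul_assoc, ← mul_assoc, mul_inv_cancel₀ hz, one_mul, smul_mul_assoc]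
  choose s t w hw hs ht hst using hnext
  obtain ⟨Z, hZ0', hZs'⟩ : ∃ Z : ℕ → {z : D // z ≠ 0}, Z 0 = ⟨z₀, hz₀⟩ ∧
      ∀ m, Z (m + 1) = ⟨(Z m : D) * s (Z m), mul_ne_zero (Z m).2 (s (Z m)).2⟩ :=
    ⟨fun m => Nat.rec ⟨z₀, hz₀⟩ (fun _ z => ⟨(z : D) * s z, mul_ne_zero z.2 (s z).2⟩) m,
      rfl, fun _ => rfl⟩
  have hZ0 : (Z 0 : D) = z₀ := by rw [hZ0']
  have hZs : ∀ m, (Z (m + 1) : D) = (Z m : D) * s (Z m) := fun m => by rw [hZs' m]
  set W : ℕ → ℕ := fun m => w (Z m) with hW
  have hW1 : ∀ m, 1 ≤ W m := fun m => hw (Z m)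
  -- comparison with the first one
  have hcmp : ∀ m N, finrank K (Xs K G (Z m : D) N) ≤
      finrank K (Xs K G z₀ (N + ∑ i ∈ range m, W i)) := by
    intro m
    induction m with
    | zero =>
      intro N
      rw [hZ0, range_zero, sum_empty, add_zero]
    | succ m ih =>
      intro N
      have hf := (Xs_fin (K := K) h (Z m : D) (N + W m)).1
      have h1 : finrank K (Xs K G (Z (m + 1) : D) N) ≤ finrank K (Xs K G (Z m : D) (N + W m)) := by
        rw [hZs]
        exact Submodule.finrank_mono (Xs_mul_left h (hs (Z m)))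
      refine h1.trans ((ih _).trans (le_of_eq ?_))
      rw [sum_range_succ, show N + W m + ∑ i ∈ range m, W i = N + (∑ i ∈ range m, W i + W m) by ring]
  obtain ⟨R, hR⟩ : ∃ R, R = 2 * C * (c0 + 2) ^ (δ + 1) + 1 := ⟨_, rfl⟩
  obtain ⟨Wt, hWt⟩ : ∃ Wt, Wt = ∑ i ∈ range R, W i := ⟨_, rfl⟩
  obtain ⟨Lp, hLp⟩ : ∃ Lp, Lp = ∏ i ∈ range R, W i := ⟨_, rfl⟩
  have hLp1 : 1 ≤ Lp := by
    rw [hLp]
    exact Nat.one_le_iff_ne_zero.2 (prod_ne_zero_iff.2 fun i _ => by
      have := hW1 i
      omega)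
  obtain ⟨T, hT⟩ : ∃ T, T = Lp * (3 * Wt + 1) := ⟨_, rfl⟩
  have hTW : 3 * Wt + 1 ≤ T := by
    rw [hT]
    exact Nat.le_mul_of_pos_left _ hLp1
  obtain ⟨N, hN⟩ : ∃ N, T = N + 1 := ⟨T - 1, by omega⟩
  obtain ⟨n, hn⟩ : ∃ n, n = c0 * T := ⟨_, rfl⟩
  obtain ⟨FB, hFB⟩ : ∃ FB, FB = C * ((c0 + 2) * T) ^ (δ + 1) := ⟨_, rfl⟩
  have hf0 : ∀ x, x ≤ n + T + 3 * Wt → finrank K (Xs K G z₀ x) ≤ FB := by
    intro x hx
    rw [hFB]
    refine (hgr x).trans (Nat.mul_le_mul_left _ (Nat.pow_le_pow_left ?_ _))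
    have : (c0 + 2) * T = c0 * T + T + T := by ring
    omega
  have hWle : ∀ m < R, W m ≤ Wt := fun m hm => by
    rw [hWt]
    exact single_le_sum (f := W) (fun _ _ => Nat.zero_le _) (mem_range.2 hm)
  have hsum_le : ∀ m ≤ R, ∑ i ∈ range m, W i ≤ Wt := fun m hm => by
    rw [hWt]
    exact sum_le_sum_of_subset (range_subset_range.2 hm)
  set Φ : ℕ → ℕ := fun m => ∑ l ∈ range T, finrank K (Xs K G (Z m : D) (n + l)) with hΦ
  have hstep : ∀ m < R, T * T ^ (δ + 1) + Φ (m + 1) ≤ 2 * W m * FB + Φ m := by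
    intro m hm
    obtain ⟨B, hB⟩ : W m ∣ T := by
      rw [hT, hLp]
      exact (dvd_prod_of_mem W (mem_range.2 hm)).mul_right _
    have h1 := layer_avg h hχ (hs (Z m)) (ht (Z m)) (hst (Z m)) n B
    have h2 := hbig (Z m) (Z m).2 N
    rw [← hN, ← hn] at h2
    have hB' : w (Z m) * B = T := hB.symm
    rw [hB'] at h1
    have h3 : finrank K (Xs K G (Z m : D) (n + T + 2 * w (Z m))) ≤ FB := by
      refine (hcmp m _).trans (hf0 _ ?_)
      have h4 := hWle m hm
      have h5 := hsum_le m hm.le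
      change n + T + 2 * W m + _ ≤ _
      omega
    have h4 : T * T ^ (δ + 1) ≤ T * finrank K' (Xs K' G (Z m : D) n) := Nat.mul_le_mul_left _ h2
    have h5 : 2 * w (Z m) * finrank K (Xs K G (Z m : D) (n + T + 2 * w (Z m))) ≤
        2 * W m * FB := Nat.mul_le_mul_left _ h3
    have h6 : Φ (m + 1) = ∑ l ∈ range T, finrank K (Xs K G ((Z m : D) * s (Z m)) (n + l)) := by
      rw [← hZs]
    have h7 : Φ m = ∑ l ∈ range T, finrank K (Xs K G (Z m : D) (n + l)) := rfl
    omega
  have hind : ∀ m ≤ R, m * (T * T ^ (δ + 1)) + Φ m ≤ 2 * (∑ i ∈ range m, W i) * FB + Φ 0 := by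
    intro m
    induction m with
    | zero =>
      intro _
      rw [range_zero, sum_empty]
      omega
    | succ m ih =>
      intro hm
      have h1 := ih (by omega)
      have h2 := hstep m (by omega)
      rw [sum_range_succ]
      have e1 : (m + 1) * (T * T ^ (δ + 1)) = m * (T * T ^ (δ + 1)) + T * T ^ (δ + 1) := by ring
      have e2 : 2 * (∑ i ∈ range m, W i + W m) * FB =
          2 * (∑ i ∈ range m, W i) * FB + 2 * W m * FB := by ring
      rw [e1, e2]
      omega
  have hΦ0 : Φ 0 ≤ T * FB := by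
    calc Φ 0 ≤ ∑ l ∈ range T, FB := sum_le_sum fun l hl => by
          rw [mem_range] at hl
          rw [hZ0]
          exact hf0 _ (by omega)
      _ = T * FB := by rw [sum_const, card_range, smul_eq_mul]
  have h1 := hind R le_rfl
  have h2 : 2 * Wt * FB ≤ T * FB := Nat.mul_le_mul_right _ (by omega)
  have h3 : R * (T * T ^ (δ + 1)) ≤ 2 * (T * FB) := by
    rw [← hWt] at h1
    omega
  have hTpos : 0 < T * T ^ (δ + 1) := by
    have : 0 < T := by omega
    positivity
  have h4 : 2 * (T * FB) = (2 * C * (c0 + 2) ^ (δ + 1)) * (T * T ^ (δ + 1)) := by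
    rw [hFB, mul_pow]
    ring
  rw [h4] at h3
  have h5 := Nat.le_of_mul_le_mul_right h3 hTpos
  omega

end

/-- a transcendental element lowers the growth exponent by one, after a twist -/
theorem step (h : Cor p G g u d c E) (K K' : Type) [Field K] [Field K'] [Algebra κ K]
    [Algebra κ K'] [Algebra K K'] [IsScalarTower κ K K'] [Module K D] [Module K' D]
    [IsScalarTower K D D] [IsScalarTower K' D D] [IsScalarTower κ K D] [IsScalarTower κ K' D]
    [IsScalarTower K K' D] (χ : K') (hχ : LinearIndependent K (fun n : ℕ => χ ^ n)) (δ C : ℕ)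
    (z : D) (hz : z ≠ 0) (hgr : ∀ N, finrank K (Xs K G z N) ≤ C * (N + 1) ^ (δ + 1)) :
    ∃ z', z' ≠ 0 ∧ ∃ C', ∀ N, finrank K' (Xs K' G z' N) ≤ C' * (N + 1) ^ δ := by
  by_contra hcon
  push Not at hcon
  refine step_aux (K := K) (K' := K') h hχ δ C (c + ∑ j, (d j + 1)) z hz hgr fun z' hz' => ?_
  rcases gap h K' δ z' with h1 | ⟨C', h1⟩
  · exact h1
  · obtain ⟨N, hN⟩ := hcon z' hz' C'
    exact absurd (h1 N) (not_le.2 hN)

end DL73
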